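import Mathlib
import Pool.Agent.Y114.RM.Defs
import Pool.Agent.R913.Adj.Weight

/-!
# One Frobenius element for each pair of motives: definitions
-/

set_option autoImplicit false

namespace Pool.Agent.K6.H79.ST

open Module Polynomial Pool.Agent.Y114.RM Pool.Agent.Y114.TF Pool.Agent.H204R3.GP
  Pool.Agent.R913.Adj

/-- The space `V i = ℚ_ℓ ^ (n i)`. -/
abbrev Sp {ι : Type} (n : ι → ℕ) (ℓ : ℕ) [Fact ℓ.Prime] (i : ι) : Type := Fin (n i) → ℚ_[ℓ]

variable {k : Type} [Field k] {ι : Type} [DecidableEq ι] {V : ι → Type}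
  [∀ i, AddCommGroup (V i)] [∀ i, Module k (V i)] {Γ : Type} [Group Γ]

/-- The `i`-th diagonal block of an endomorphism of the direct sum. -/
def block (i : ι) (X : End k (∀ i, V i)) : End k (V i) :=
  LinearMap.proj i ∘ₗ X ∘ₗ LinearMap.single k V i

/-- The endomorphism `Z` multiplies the form `b` by `μ` (as an element of the Lie algebra). -/
def Multiplies {W : Type} [AddCommGroup W] [Module k W] (b : W →ₗ[k] W →ₗ[k] k) (Z : End k W)
    (μ : k) : Prop :=
  ∀ x y, b (Z x) y + b x (Z y) = μ * b x y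

theorem isoLie_zero (b : ∀ i, V i →ₗ[k] V i →ₗ[k] k) (𝔤 : Submodule k (End k (∀ i, V i))) (i : ι) :
    (0 : End k (V i)) ∈ {Z : End k (V i) | (∃ X ∈ 𝔤, block i X = Z) ∧ Multiplies (b i) Z 0} := by
  refine ⟨⟨0, 𝔤.zero_mem, ?_⟩, fun x y => ?_⟩
  · rw [block, LinearMap.zero_comp, LinearMap.comp_zero]
  · simp

theorem isoLie_add (b : ∀ i, V i →ₗ[k] V i →ₗ[k] k) (𝔤 : Submodule k (End k (∀ i, V i))) (i : ι)
    {Z Z' : End k (V i)}
    (hZ : Z ∈ {Z : End k (V i) | (∃ X ∈ 𝔤, block i X = Z) ∧ Multiplies (b i) Z 0})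
    (hZ' : Z' ∈ {Z : End k (V i) | (∃ X ∈ 𝔤, block i X = Z) ∧ Multiplies (b i) Z 0}) :
    Z + Z' ∈ {Z : End k (V i) | (∃ X ∈ 𝔤, block i X = Z) ∧ Multiplies (b i) Z 0} := by
  obtain ⟨⟨X, hX, rfl⟩, hX'⟩ := hZ
  obtain ⟨⟨Y, hY, rfl⟩, hY'⟩ := hZ'
  refine ⟨⟨X + Y, 𝔤.add_mem hX hY, ?_⟩, fun x y => ?_⟩
  · rw [block, LinearMap.add_comp, LinearMap.comp_add]
    rfl
  · have h1 := hX' x y
    have h2 := hY' x y
    simp only [LinearMap.add_apply, map_add]
    linear_combination h1 + h2

theorem isoLie_smul (b : ∀ i, V i →ₗ[k] V i →ₗ[k] k) (𝔤 : Submodule k (End k (∀ i, V i))) (i : ι)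
    (c : k) {Z : End k (V i)}
    (hZ : Z ∈ {Z : End k (V i) | (∃ X ∈ 𝔤, block i X = Z) ∧ Multiplies (b i) Z 0}) :
    c • Z ∈ {Z : End k (V i) | (∃ X ∈ 𝔤, block i X = Z) ∧ Multiplies (b i) Z 0} := by
  obtain ⟨⟨X, hX, rfl⟩, hX'⟩ := hZ
  refine ⟨⟨c • X, 𝔤.smul_mem c hX, ?_⟩, fun x y => ?_⟩
  · rw [block, LinearMap.smul_comp, LinearMap.comp_smul]
    rfl
  · have h1 := hX' x y
    simp only [LinearMap.smul_apply, map_smul, smul_eq_mul]
    linear_combination c * h1

/-- The Lie algebra of the kernel of the multiplier on the motivic Galois group of the `i`-th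
summand: the blocks of the elements of `𝔤` which preserve the form `b i`. -/
def isoLie (b : ∀ i, V i →ₗ[k] V i →ₗ[k] k) (𝔤 : Submodule k (End k (∀ i, V i))) (i : ι) :
    Submodule k (End k (V i)) where
  carrier := {Z | (∃ X ∈ 𝔤, block i X = Z) ∧ Multiplies (b i) Z 0}
  zero_mem' := isoLie_zero b 𝔤 i
  add_mem' := isoLie_add b 𝔤 i
  smul_mem' := fun c _ => isoLie_smul b 𝔤 i c

/-- The subspace `U` of endomorphisms is stable under conjugation by the elements of `Γ`. -/
def ConjStable {W : Type} [AddCommGroup W] [Module k W] (ρ : Representation k Γ W)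
    (U : Submodule k (End k W)) : Prop :=
  ∀ γ : Γ, ∀ Z ∈ U, ρ γ * Z * ρ γ⁻¹ ∈ U

/-- The centre of the space `𝔥` of endomorphisms is zero. -/
def ZeroCentre {W : Type} [AddCommGroup W] [Module k W] (𝔥 : Submodule k (End k W)) : Prop :=
  ∀ Z ∈ 𝔥, (∀ Z' ∈ 𝔥, Z * Z' = Z' * Z) → Z = 0

/-- `Γ` acts irreducibly on the space `𝔥` of endomorphisms, by conjugation, and `𝔥` is not
commutative. -/
def IrreducibleAdjoint {W : Type} [AddCommGroup W] [Module k W]
    (ρ : Representation k Γ W) (𝔥 : Submodule k (End k W)) : Prop :=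
  (∃ Z ∈ 𝔥, ∃ Z' ∈ 𝔥, Z * Z' ≠ Z' * Z) ∧
  ∀ U : Submodule k (End k W), U ≤ 𝔥 → ConjStable ρ U → U = ⊥ ∨ U = 𝔥

/-- The element `α` of the algebraic closure is an eigenvalue of `Z`. -/
def IsEigenvalue {W : Type} [AddCommGroup W] [Module k W] [FiniteDimensional k W] (Z : End k W)
    (α : AlgebraicClosure k) : Prop :=
  aeval α Z.charpoly = 0

/-- Some element of `Γ` has two eigenvalues on `W` whose quotient is not a root of unity. -/
def NotSupersingular {W : Type} [AddCommGroup W] [Module k W] [FiniteDimensional k W]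
    (ρ : Representation k Γ W) : Prop :=
  ∃ (γ : Γ) (α α' : AlgebraicClosure k), IsEigenvalue (ρ γ) α ∧ IsEigenvalue (ρ γ) α' ∧
    ∀ n : ℕ, 0 < n → α ^ n ≠ α' ^ n

/-- **The condition on one Frobenius element.** Some element `γ` of `Γ` has an eigenvalue `α` on `W`, no
positive power of which is in the multiplicative group generated by the eigenvalues of `γ` on
`W'`. -/
def IndependentFrom {W W' : Type} [AddCommGroup W] [Module k W] [FiniteDimensional k W]
    [AddCommGroup W'] [Module k W'] [FiniteDimensional k W'] (ρ : Representation k Γ W)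
    (ρ' : Representation k Γ W') : Prop :=
  ∃ (γ : Γ) (α : AlgebraicClosure k), IsEigenvalue (ρ γ) α ∧
    ∀ n : ℕ, 0 < n → ∀ u ∈ Subgroup.closure
      {u : (AlgebraicClosure k)ˣ | IsEigenvalue (ρ' γ) u}, (u : AlgebraicClosure k) ≠ α ^ n

variable (k V Γ) in
/-- The realizations `ρ i`, the multiplier `χ`, the weight `w`, the polarizations `b i` and the
motivic Lie algebra `𝔤` of a direct sum of motives. -/
structure Family where
  /-- the realizations -/
  ρ : ∀ i, Representation k Γ (V i)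
  /-- the multiplier -/
  χ : Γ → k
  /-- the weight -/
  w : ℤ
  /-- the polarizations -/
  b : ∀ i, V i →ₗ[k] V i →ₗ[k] k
  /-- the motivic Lie algebra -/
  𝔤 : Submodule k (End k (∀ i, V i))

namespace Family

variable (D : Family k V Γ)

/-- The Lie algebra `𝔥 i` of the kernel of the multiplier on the motivic Galois group of the `i`-th
summand. -/
def 𝔥 (i : ι) : Submodule k (End k (V i)) := isoLie D.b D.𝔤 i

/-- The properties of the realizations, polarizations and of the Lie algebra of a direct sum of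
polarized motives of weight `w`: `𝔤` has the properties of the Lie algebra of the motivic Galois group
(`IsMotivic`), the forms `b i` are nondegenerate, and the elements of `Γ` and of `𝔤` multiply all
polarizations by the same numbers (zero for the elements of `𝔤`, if `w = 0`). -/
structure IsPolarized : Prop where
  motivic : IsMotivic D.ρ D.𝔤
  nondegenerate : ∀ i x, (∀ y, D.b i x y = 0) → x = 0
  galois : ∀ γ i x y, D.b i (D.ρ i γ x) (D.ρ i γ y) = D.χ γ * D.b i x y
  lie : ∀ X ∈ D.𝔤, ∃ μ : k, (D.w = 0 → μ = 0) ∧ ∀ i, Multiplies (D.b i) (block i X) μ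

/-- **The condition on a pair**: the dimension of `𝔥 i` is greater than the one of `𝔥 j`, or
`IndependentFrom` holds for `i` and `j`. -/
def Apart [∀ i, FiniteDimensional k (V i)] (i j : ι) : Prop :=
  finrank k (D.𝔥 j) < finrank k (D.𝔥 i) ∨ IndependentFrom (D.ρ i) (D.ρ j)

/-- The conditions on the motives: `𝔥 o` has the centre zero; for `i ≠ o` the representation of `Γ` on
`𝔥 i` is irreducible, and some element of `Γ` has two eigenvalues on `V i` whose quotient is not a
root of unity; for `i ≠ o` and `j ≠ i` the condition `Apart` holds for `i` and `j`, or, if `j ≠ o`,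
for `j` and `i`. -/
structure Addable [∀ i, FiniteDimensional k (V i)] (o : ι) : Prop where
  centre : ZeroCentre (D.𝔥 o)
  irreducible : ∀ i, i ≠ o → IrreducibleAdjoint (D.ρ i) (D.𝔥 i)
  notSupersingular : ∀ i, i ≠ o → NotSupersingular (D.ρ i)
  apart : ∀ i j, i ≠ o → i ≠ j → D.Apart i j ∨ (j ≠ o ∧ D.Apart j i)

/-- **The motivic Mumford-Tate conjecture**: the Tate tensors are exactly the tensors killed by
`𝔤`. -/
def MumfordTate : Prop :=
  ∀ (m : ℕ) (φ : Tensor k (∀ i, V i) m), TateTensor (sumRep D.ρ) φ ↔ ∀ X ∈ D.𝔤, KillsTensor X φ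

/-- The Tate tensors with four variables on `V o` are killed by `𝔤`. -/
def DegreeFour (o : ι) : Prop :=
  ∀ φ : Tensor k (V o) 4, TateTensor (D.ρ o) φ → ∀ X ∈ D.𝔤, KillsTensor (block o X) φ

end Family

end Pool.Agent.K6.H79.ST
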