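import Mathlib
import Pool.Agent.K6.H79.ST.PairDefs
import Pool.Agent.K6.H92.Deg4c

/-!
# Lie algebras with irreducible components: the lemma of Goursat and Ribet
-/

set_option autoImplicit false
set_option linter.unusedSectionVars false

namespace Pool.Agent.K6.H79.ST

open Module Pool.Agent.Y114.RM Pool.Agent.Y114.TF Pool.Agent.H204R3.GP Pool.Agent.K6.H92.D4

variable {k : Type} [Field k] [CharZero k] {ι : Type} [Fintype ι] [DecidableEq ι] {V : ι → Type}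
  [∀ i, AddCommGroup (V i)] [∀ i, Module k (V i)] [∀ i, FiniteDimensional k (V i)]
  {Γ : Type} [Group Γ]

omit [CharZero k] [Fintype ι] [∀ i, FiniteDimensional k (V i)] in
theorem block_eq (i : ι) (X : End k (∀ i, V i)) : block i X = cmp i X := rfl

section mult

variable {W : Type} [AddCommGroup W] [Module k W] {b : W →ₗ[k] W →ₗ[k] k}

omit [CharZero k] in
theorem Multiplies.unique (hb : b ≠ 0) {Z : End k W} {μ μ' : k} (h : Multiplies b Z μ)
    (h' : Multiplies b Z μ') : μ = μ' := by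
  by_contra hne
  apply hb
  refine LinearMap.ext fun x => LinearMap.ext fun y => ?_
  have h1 := (h x y).symm.trans (h' x y)
  have h2 : (μ - μ') * b x y = 0 := by linear_combination h1
  exact (mul_eq_zero.1 h2).resolve_left (sub_ne_zero.2 hne)

omit [CharZero k] in
theorem Multiplies.zero : Multiplies b (0 : End k W) 0 := by
  intro x y
  simp

omit [CharZero k] in
theorem Multiplies.add {Z Z' : End k W} {μ μ' : k} (h : Multiplies b Z μ)
    (h' : Multiplies b Z' μ') : Multiplies b (Z + Z') (μ + μ') := by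
  intro x y
  have h1 := h x y
  have h2 := h' x y
  simp only [LinearMap.add_apply, map_add]
  linear_combination h1 + h2

omit [CharZero k] in
theorem Multiplies.smul {Z : End k W} {μ : k} (c : k) (h : Multiplies b Z μ) :
    Multiplies b (c • Z) (c * μ) := by
  intro x y
  have h1 := h x y
  simp only [LinearMap.smul_apply, map_smul, smul_eq_mul]
  linear_combination c * h1

omit [CharZero k] in
theorem Multiplies.one : Multiplies b (1 : End k W) 2 := by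
  intro x y
  change b x y + b x y = 2 * b x y
  ring

omit [CharZero k] in
theorem Multiplies.bracket {Z Z' : End k W} {μ μ' : k} (h : Multiplies b Z μ)
    (h' : Multiplies b Z' μ') : Multiplies b (Z * Z' - Z' * Z) 0 := by
  intro x y
  have h1 := h (Z' x) y
  have h2 := h x (Z' y)
  have h3 := h' (Z x) y
  have h4 := h' x (Z y)
  have h5 := h x y
  have h6 := h' x y
  simp only [LinearMap.sub_apply, Module.End.mul_apply, map_sub]
  linear_combination h1 + h2 - h3 - h4 - μ' * h5 + μ * h6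

omit [CharZero k] in
theorem Multiplies.conj {ρ : Representation k Γ W} {γ : Γ} {c : k}
    (hρ : ∀ x y, b (ρ γ x) (ρ γ y) = c * b x y) {Z : End k W} {μ : k} (h : Multiplies b Z μ) :
    Multiplies b (ρ γ * Z * ρ γ⁻¹) μ := by
  intro x y
  have h1 : ∀ z : W, ρ γ (ρ γ⁻¹ z) = z := by
    intro z
    rw [← Module.End.mul_apply, ← map_mul, mul_inv_cancel, map_one]
    rfl
  have h2 := h (ρ γ⁻¹ x) (ρ γ⁻¹ y)
  have h3 := hρ (Z (ρ γ⁻¹ x)) (ρ γ⁻¹ y)
  have h4 := hρ (ρ γ⁻¹ x) (Z (ρ γ⁻¹ y))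
  have h5 := hρ (ρ γ⁻¹ x) (ρ γ⁻¹ y)
  rw [h1] at h3 h4 h5
  rw [h1] at h5
  simp only [Module.End.mul_apply]
  rw [h3, h4, h5]
  linear_combination c * h2

omit [CharZero k] in
theorem trace_zero [FiniteDimensional k W] (h2 : (2 : k) ≠ 0)
    (hb : ∀ x, (∀ y, b x y = 0) → x = 0) {Z : End k W}
    (hZ : Multiplies b Z 0) : LinearMap.trace k W Z = 0 := by
  have hinj : Function.Injective b := by
    rw [injective_iff_map_eq_zero]
    intro x hx
    exact hb x fun y => by rw [hx, LinearMap.zero_apply]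
  let e : W ≃ₗ[k] Dual k W := LinearMap.linearEquivOfInjective b hinj
    (Subspace.dual_finrank_eq).symm
  have he : ∀ x, e x = b x := fun x => rfl
  have h1 : Module.Dual.transpose (R := k) Z = (-1 : k) • (e.conj Z) := by
    refine LinearMap.ext fun ξ => ?_
    obtain ⟨x, rfl⟩ := e.surjective ξ
    refine LinearMap.ext fun y => ?_
    rw [LinearMap.smul_apply, LinearEquiv.conj_apply_apply, e.symm_apply_apply, he,
      LinearMap.smul_apply]
    change b x (Z y) = (-1 : k) * (b (Z x) y)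
    have h3 := hZ x y
    rw [zero_mul] at h3
    linear_combination h3
  have h3 := LinearMap.trace_transpose' (R := k) Z
  rw [h1, LinearMap.map_smul, LinearMap.trace_conj', smul_eq_mul] at h3
  have h4 : (2 : k) * LinearMap.trace k W Z = 0 := by linear_combination -h3
  exact (mul_eq_zero.1 h4).resolve_left h2

end mult

/-- The hypotheses of the lemma. -/
structure Setup (ρ : ∀ i, Representation k Γ (V i)) (χ : Γ → k)
    (b : ∀ i, V i →ₗ[k] V i →ₗ[k] k) (𝔤 L : Submodule k (End k (∀ i, V i))) (o : ι) : Prop where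
  le : L ≤ 𝔤
  lie : IsLie L
  ad : ∀ γ, ∀ X ∈ L, sumRep ρ γ * X * sumRep ρ γ⁻¹ ∈ L
  diag : ∀ X ∈ 𝔤, Diag X
  nondeg : ∀ i x, (∀ y, b i x y = 0) → x = 0
  galois : ∀ γ i x y, b i (ρ i γ x) (ρ i γ y) = χ γ * b i x y
  mult : ∀ X ∈ 𝔤, ∃ μ : k, ∀ i, Multiplies (b i) (cmp i X) μ
  one : (1 : End k (∀ i, V i)) ∈ L ∨ ∀ X ∈ 𝔤, ∀ i, Multiplies (b i) (cmp i X) 0
  irr : ∀ i, i ≠ o → IrreducibleAdjoint (ρ i) (isoLie b 𝔤 i)
  nonscalar : ∀ i, i ≠ o → ∃ X ∈ L, ∀ c : k, cmp i X ≠ c • 1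

variable {ρ : ∀ i, Representation k Γ (V i)} {χ : Γ → k} {b : ∀ i, V i →ₗ[k] V i →ₗ[k] k}
  {𝔤 L : Submodule k (End k (∀ i, V i))} {o : ι}

/-- The elements of `L` with multiplier zero. -/
def iso (b : ∀ i, V i →ₗ[k] V i →ₗ[k] k) (L : Submodule k (End k (∀ i, V i))) :
    Submodule k (End k (∀ i, V i)) where
  carrier := {X | X ∈ L ∧ ∀ i, Multiplies (b i) (cmp i X) 0}
  zero_mem' := ⟨L.zero_mem, fun i => by rw [map_zero]; exact Multiplies.zero⟩
  add_mem' := by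
    rintro X Y ⟨hX, hX'⟩ ⟨hY, hY'⟩
    refine ⟨L.add_mem hX hY, fun i => ?_⟩
    rw [map_add]
    have h := (hX' i).add (hY' i)
    rwa [add_zero] at h
  smul_mem' := by
    rintro c X ⟨hX, hX'⟩
    refine ⟨L.smul_mem c hX, fun i => ?_⟩
    rw [map_smul]
    have h := (hX' i).smul c
    rwa [mul_zero] at h

theorem cmp_one (i : ι) : cmp i (1 : End k (∀ i, V i)) = 1 := by
  refine LinearMap.ext fun x => ?_
  rw [cmp_apply, Module.End.one_apply, Pi.single_eq_same, Module.End.one_apply]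

theorem cmp_sub_smul (i : ι) (X : End k (∀ i, V i)) (c : k) :
    cmp i (X - c • 1) = cmp i X + (-c) • 1 := by
  rw [map_sub, map_smul, cmp_one, neg_smul, sub_eq_add_neg]

theorem sum_blk {X : End k (∀ i, V i)} (hX : Diag X) : ∑ i, blk i (cmp i X) = X := by
  refine LinearMap.ext fun x => ?_
  rw [LinearMap.sum_apply]
  funext j
  rw [Finset.sum_apply, Finset.sum_eq_single j]
  · rw [blk_apply, Pi.single_eq_same, hX.apply]
  · intro i _ hij
    rw [blk_apply, Pi.single_eq_of_ne hij.symm]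
  · intro hj
    exact absurd (Finset.mem_univ j) hj

theorem cmp_blk_ne {i j : ι} (hij : i ≠ j) (Z : End k (V i)) : cmp j (blk (V := V) i Z) = 0 := by
  refine LinearMap.ext fun x => ?_
  rw [cmp_apply, blk_apply, Pi.single_eq_of_ne hij.symm]
  rfl

namespace Setup

theorem ne_zero (h : Setup ρ χ b 𝔤 L o) {i : ι} (hi : i ≠ o) : b i ≠ 0 := by
  intro h0
  obtain ⟨Z, -, Z', -, hne⟩ := (h.irr i hi).1
  apply hne
  refine LinearMap.ext fun x => ?_
  have h1 : ∀ x : V i, x = 0 := fun x => h.nondeg i x fun y => by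
    rw [h0, LinearMap.zero_apply, LinearMap.zero_apply]
  rw [h1 ((Z * Z') x), h1 ((Z' * Z) x)]

theorem iso_of (h : Setup ρ χ b 𝔤 L o) {X : End k (∀ i, V i)} (hX : X ∈ L) {j : ι}
    (hbj : b j ≠ 0) (hj : Multiplies (b j) (cmp j X) 0) : X ∈ iso b L := by
  obtain ⟨μ, hμ⟩ := h.mult X (h.le hX)
  have h1 : μ = 0 := (hμ j).unique hbj hj
  subst h1
  exact ⟨hX, hμ⟩

theorem mem_isoLie (h : Setup ρ χ b 𝔤 L o) {X : End k (∀ i, V i)} (hX : X ∈ iso b L) (i : ι) :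
    cmp i X ∈ isoLie b 𝔤 i := ⟨⟨X, h.le hX.1, rfl⟩, hX.2 i⟩

theorem iso_bracket (h : Setup ρ χ b 𝔤 L o) {X Y : End k (∀ i, V i)} (hX : X ∈ iso b L)
    (hY : Y ∈ iso b L) : X * Y - Y * X ∈ iso b L := by
  refine ⟨h.lie X hX.1 Y hY.1, fun i => ?_⟩
  rw [map_sub, cmp_mul_left (h.diag X (h.le hX.1)), cmp_mul_left (h.diag Y (h.le hY.1))]
  exact (hX.2 i).bracket (hY.2 i)

theorem cmp_conj (h : Setup ρ χ b 𝔤 L o) {X : End k (∀ i, V i)} (hX : X ∈ L) (γ : Γ) (i : ι) :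
    cmp i (sumRep ρ γ * X * sumRep ρ γ⁻¹) = ρ i γ * cmp i X * ρ i γ⁻¹ := by
  rw [cmp_mul_left ((diag_sum ρ γ).mul (h.diag X (h.le hX))), cmp_mul_left (diag_sum ρ γ), cmp_sum,
    cmp_sum]

theorem iso_conj (h : Setup ρ χ b 𝔤 L o) {X : End k (∀ i, V i)} (hX : X ∈ iso b L) (γ : Γ) :
    sumRep ρ γ * X * sumRep ρ γ⁻¹ ∈ iso b L := by
  refine ⟨h.ad γ X hX.1, fun i => ?_⟩
  rw [h.cmp_conj hX.1]
  exact (hX.2 i).conj fun x y => h.galois γ i x y

/-- Stable subspaces of elements with multiplier zero have components zero or everything. -/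
theorem all_of_stable (h : Setup ρ χ b 𝔤 L o) {i : ι} (hi : i ≠ o)
    {U : Submodule k (End k (∀ i, V i))}
    (hU : U ≤ iso b L) (hst : ∀ γ, ∀ X ∈ U, sumRep ρ γ * X * sumRep ρ γ⁻¹ ∈ U)
    (hne : ∃ X ∈ U, cmp i X ≠ 0) : ∀ Z ∈ isoLie b 𝔤 i, ∃ X ∈ U, cmp i X = Z := by
  have h1 := (h.irr i hi).2 (U.map (cmp i)) (by
    rintro _ ⟨X, hX, rfl⟩
    exact h.mem_isoLie (hU hX) i) (by
    rintro γ _ ⟨X, hX, rfl⟩
    exact ⟨_, hst γ X hX, h.cmp_conj (hU hX).1 γ i⟩)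
  rcases h1 with h1 | h1
  · exfalso
    obtain ⟨X, hX, hX0⟩ := hne
    apply hX0
    have h2 : cmp i X ∈ U.map (cmp i) := ⟨X, hX, rfl⟩
    rw [h1] at h2
    exact h2
  · intro Z hZ
    rw [← h1] at hZ
    exact hZ

/-- Elements of `𝔤` differ from elements with multiplier zero by homotheties. -/
theorem exists_zero (h : Setup ρ χ b 𝔤 L o) {X : End k (∀ i, V i)} (hX : X ∈ 𝔤) :
    ∃ c : k, (∀ i, Multiplies (b i) (cmp i (X - c • 1)) 0) ∧
      c • (1 : End k (∀ i, V i)) ∈ L := by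
  rcases h.one with h1 | h1
  · obtain ⟨μ, hμ⟩ := h.mult X hX
    refine ⟨μ / 2, fun j => ?_, L.smul_mem _ h1⟩
    rw [cmp_sub_smul]
    have h3 := (hμ j).add ((Multiplies.one (b := b j)).smul (-(μ / 2)))
    have h4 : μ + -(μ / 2) * 2 = 0 := by ring
    rwa [h4] at h3
  · refine ⟨0, fun j => ?_, by rw [zero_smul]; exact L.zero_mem⟩
    rw [zero_smul, sub_zero]
    exact h1 X hX j

theorem exists_iso (h : Setup ρ χ b 𝔤 L o) {X : End k (∀ i, V i)} (hX : X ∈ L) :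
    ∃ c : k, X - c • 1 ∈ iso b L := by
  obtain ⟨c, hc, hcL⟩ := h.exists_zero (h.le hX)
  exact ⟨c, L.sub_mem hX hcL, hc⟩

theorem surj (h : Setup ρ χ b 𝔤 L o) {i : ι} (hi : i ≠ o) :
    ∀ Z ∈ isoLie b 𝔤 i, ∃ X ∈ iso b L, cmp i X = Z := by
  refine h.all_of_stable hi le_rfl (fun γ X hX => h.iso_conj hX γ) ?_
  obtain ⟨X, hX, hXc⟩ := h.nonscalar i hi
  obtain ⟨c, hc⟩ := h.exists_iso hX
  refine ⟨_, hc, fun h2 => hXc c ?_⟩
  rw [map_sub, map_smul, cmp_one, sub_eq_zero] at h2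
  exact h2

/-- The elements with multiplier zero and vanishing `j`-th component. -/
def ker (b : ∀ i, V i →ₗ[k] V i →ₗ[k] k) (L : Submodule k (End k (∀ i, V i))) (j : ι) :
    Submodule k (End k (∀ i, V i)) := iso b L ⊓ LinearMap.ker (cmp j)

theorem ker_stable (h : Setup ρ χ b 𝔤 L o) (j : ι) :
    ∀ γ, ∀ X ∈ ker b L j, sumRep ρ γ * X * sumRep ρ γ⁻¹ ∈ ker b L j := by
  rintro γ X ⟨hX, hX0⟩
  refine ⟨h.iso_conj hX γ, ?_⟩
  have h1 : cmp j X = 0 := hX0
  change cmp j (sumRep ρ γ * X * sumRep ρ γ⁻¹) = 0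
  rw [h.cmp_conj hX.1, h1, mul_zero, zero_mul]

/-- From one to the other. -/
theorem swap (h : Setup ρ χ b 𝔤 L o) {i j : ι} (hj : j ≠ o)
    (hij : ∀ Z ∈ isoLie b 𝔤 i, ∃ X ∈ ker b L j, cmp i X = Z) :
    ∀ Z ∈ isoLie b 𝔤 j, ∃ X ∈ ker b L i, cmp j X = Z := by
  intro Z hZ
  obtain ⟨X, hX, rfl⟩ := h.surj hj Z hZ
  obtain ⟨Y, hY, hYX⟩ := hij (cmp i X) (h.mem_isoLie hX i)
  have hY0 : cmp j Y = 0 := hY.2
  refine ⟨X - Y, ⟨(iso b L).sub_mem hX hY.1, ?_⟩, ?_⟩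
  · change cmp i (X - Y) = 0
    rw [map_sub, hYX, sub_self]
  · rw [map_sub, hY0, sub_zero]

/-- From an element of `L` with vanishing `j`-th component. -/
theorem of_indep (h : Setup ρ χ b 𝔤 L o) {i j : ι} (hi : i ≠ o)
    (hX : ∃ X ∈ L, cmp j X = 0 ∧ cmp i X ≠ 0) :
    ∀ Z ∈ isoLie b 𝔤 i, ∃ X ∈ ker b L j, cmp i X = Z := by
  by_cases hbj : b j = 0
  · intro Z hZ
    obtain ⟨X, hX, rfl⟩ := h.surj hi Z hZ
    refine ⟨X, ⟨hX, ?_⟩, rfl⟩
    change cmp j X = 0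
    have h1 : ∀ x : V j, x = 0 := fun x => h.nondeg j x fun y => by
      rw [hbj, LinearMap.zero_apply, LinearMap.zero_apply]
    exact LinearMap.ext fun x => h1 _
  · obtain ⟨X, hX, hX0, hX1⟩ := hX
    refine h.all_of_stable hi inf_le_left (h.ker_stable j) ⟨X, ⟨?_, hX0⟩, hX1⟩
    refine h.iso_of hX hbj ?_
    rw [hX0]
    exact Multiplies.zero

/-- From the dimensions. -/
theorem of_lt (h : Setup ρ χ b 𝔤 L o) {i j : ι} (hi : i ≠ o)
    (hlt : finrank k (isoLie b 𝔤 j) < finrank k (isoLie b 𝔤 i)) :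
    ∀ Z ∈ isoLie b 𝔤 i, ∃ X ∈ ker b L j, cmp i X = Z := by
  by_cases h1 : ∃ X ∈ ker b L j, cmp i X ≠ 0
  · exact h.all_of_stable hi inf_le_left (h.ker_stable j) h1
  exfalso
  push Not at h1
  let f : iso b L →ₗ[k] End k (V i) := (cmp i).domRestrict (iso b L)
  let g : iso b L →ₗ[k] End k (V j) := (cmp j).domRestrict (iso b L)
  have hf : LinearMap.range f = isoLie b 𝔤 i := by
    ext Z
    constructor
    · rintro ⟨X, rfl⟩
      exact h.mem_isoLie X.2 i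
    · intro hZ
      obtain ⟨X, hX, rfl⟩ := h.surj hi Z hZ
      exact ⟨⟨X, hX⟩, rfl⟩
  have hg : LinearMap.range g ≤ isoLie b 𝔤 j := by
    rintro _ ⟨X, rfl⟩
    exact h.mem_isoLie X.2 j
  have hker : LinearMap.ker g ≤ LinearMap.ker f := fun X hX => h1 X.1 ⟨X.2, hX⟩
  have h3 := LinearMap.finrank_range_add_finrank_ker (K := k) (V := iso b L)
    (V₂ := End k (V i)) f
  have h4 := LinearMap.finrank_range_add_finrank_ker (K := k) (V := iso b L)
    (V₂ := End k (V j)) g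
  have h5 := Submodule.finrank_mono hg
  have h6 := Submodule.finrank_mono hker
  rw [hf] at h3
  omega

/-- The condition on a pair. -/
def PairOK (b : ∀ i, V i →ₗ[k] V i →ₗ[k] k) (𝔤 L : Submodule k (End k (∀ i, V i))) (i j : ι) :
    Prop :=
  finrank k (isoLie b 𝔤 j) < finrank k (isoLie b 𝔤 i) ∨ ∃ X ∈ L, cmp j X = 0 ∧ cmp i X ≠ 0

theorem pair (h : Setup ρ χ b 𝔤 L o) {i j : ι} (hi : i ≠ o)
    (hp : PairOK b 𝔤 L i j ∨ (j ≠ o ∧ PairOK b 𝔤 L j i)) :
    ∀ Z ∈ isoLie b 𝔤 i, ∃ X ∈ ker b L j, cmp i X = Z := by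
  have key : ∀ i j : ι, i ≠ o → PairOK b 𝔤 L i j →
      ∀ Z ∈ isoLie b 𝔤 i, ∃ X ∈ ker b L j, cmp i X = Z := by
    rintro i j hi (hp | hp)
    · exact h.of_lt hi hp
    · exact h.of_indep hi hp
  rcases hp with hp | ⟨hj, hp⟩
  · exact key i j hi hp
  · exact h.swap hi (key j i hj hp)

/-- `𝔥 i` is spanned by brackets. -/
theorem mem_brackets (h : Setup ρ χ b 𝔤 L o) {i : ι} (hi : i ≠ o) {Z : End k (V i)}
    (hZ : Z ∈ isoLie b 𝔤 i) :
    Z ∈ Submodule.span k {T | ∃ A ∈ isoLie b 𝔤 i, ∃ B ∈ isoLie b 𝔤 i, T = A * B - B * A} := by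
  let S : Submodule k (End k (V i)) :=
    Submodule.span k {T | ∃ A ∈ isoLie b 𝔤 i, ∃ B ∈ isoLie b 𝔤 i, T = A * B - B * A}
  have hconj : ∀ γ, ∀ A ∈ isoLie b 𝔤 i, ρ i γ * A * ρ i γ⁻¹ ∈ isoLie b 𝔤 i := by
    intro γ A hA
    obtain ⟨X, hX, rfl⟩ := h.surj hi A hA
    rw [← h.cmp_conj hX.1]
    exact h.mem_isoLie (h.iso_conj hX γ) i
  have h1 := (h.irr i hi).2 S (by
    refine Submodule.span_le.2 ?_
    rintro _ ⟨A, hA, B, hB, rfl⟩
    obtain ⟨X, hX, rfl⟩ := h.surj hi A hA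
    obtain ⟨Y, hY, rfl⟩ := h.surj hi B hB
    have h2 := h.mem_isoLie (h.iso_bracket hX hY) i
    rw [map_sub, cmp_mul_left (h.diag X (h.le hX.1)), cmp_mul_left (h.diag Y (h.le hY.1))] at h2
    exact h2) (by
    intro γ T hT
    induction hT using Submodule.span_induction with
    | mem T hT =>
      obtain ⟨A, hA, B, hB, rfl⟩ := hT
      refine Submodule.subset_span ⟨_, hconj γ A hA, _, hconj γ B hB, ?_⟩
      have h2 : ρ i γ⁻¹ * ρ i γ = 1 := by rw [← map_mul, inv_mul_cancel, map_one]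
      have h3 : ∀ A B : End k (V i), ρ i γ * A * ρ i γ⁻¹ * (ρ i γ * B * ρ i γ⁻¹) =
          ρ i γ * (A * B) * ρ i γ⁻¹ := by
        intro A B
        calc ρ i γ * A * ρ i γ⁻¹ * (ρ i γ * B * ρ i γ⁻¹) =
            ρ i γ * A * (ρ i γ⁻¹ * ρ i γ) * B * ρ i γ⁻¹ := by simp only [mul_assoc]
          _ = _ := by rw [h2, mul_one]; simp only [mul_assoc]
      rw [h3, h3, mul_sub, sub_mul]
    | zero => rw [mul_zero, zero_mul]; exact S.zero_mem
    | add T T' _ _ hT hT' => rw [mul_add, add_mul]; exact S.add_mem hT hT'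
    | smul c T _ hT => rw [mul_smul_comm, smul_mul_assoc]; exact S.smul_mem c hT)
  rcases h1 with h1 | h1
  · exfalso
    obtain ⟨A, hA, B, hB, hAB⟩ := (h.irr i hi).1
    apply hAB
    have h2 : A * B - B * A ∈ S := Submodule.subset_span ⟨A, hA, B, hB, rfl⟩
    rw [h1, Submodule.mem_bot] at h2
    exact sub_eq_zero.1 h2
  · change Z ∈ S
    rw [h1]
    exact hZ

/-- **The lemma of Ribet.** -/
theorem ribet (h : Setup ρ χ b 𝔤 L o) {i : ι} (hi : i ≠ o)
    (hp : ∀ j, i ≠ j → PairOK b 𝔤 L i j ∨ (j ≠ o ∧ PairOK b 𝔤 L j i))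
    (J : Finset ι) : i ∉ J → ∀ Z ∈ isoLie b 𝔤 i, ∃ X ∈ iso b L, cmp i X = Z ∧
      ∀ j ∈ J, cmp j X = 0 := by
  induction J using Finset.induction_on with
  | empty =>
    intro _ Z hZ
    obtain ⟨X, hX, hXZ⟩ := h.surj hi Z hZ
    exact ⟨X, hX, hXZ, fun j hj => absurd hj (Finset.notMem_empty j)⟩
  | insert j J hj ih =>
    intro hiJ' Z hZ
    have hij : i ≠ j := fun h' => hiJ' (h' ▸ Finset.mem_insert_self _ _)
    have hiJ : i ∉ J := fun h' => hiJ' (Finset.mem_insert_of_mem h')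
    have h1 := h.mem_brackets hi hZ
    clear hZ
    induction h1 using Submodule.span_induction with
    | mem T hT =>
      obtain ⟨A, hA, B, hB, rfl⟩ := hT
      obtain ⟨X, hX, rfl, hX0⟩ := ih hiJ A hA
      obtain ⟨Y, hY, rfl⟩ := h.pair hi (hp j hij) B hB
      have hY0 : cmp j Y = 0 := hY.2
      refine ⟨X * Y - Y * X, h.iso_bracket hX hY.1, ?_, fun l hl => ?_⟩
      · rw [map_sub, cmp_mul_left (h.diag X (h.le hX.1)), cmp_mul_left (h.diag Y (h.le hY.1.1))]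
      · rw [map_sub, cmp_mul_left (h.diag X (h.le hX.1)), cmp_mul_left (h.diag Y (h.le hY.1.1))]
        rcases Finset.mem_insert.1 hl with rfl | hl
        · rw [hY0, mul_zero, zero_mul, sub_zero]
        · rw [hX0 l hl, mul_zero, zero_mul, sub_zero]
    | zero => exact ⟨0, (iso b L).zero_mem, map_zero _, fun l _ => map_zero _⟩
    | add T T' hT hT' hX hX' =>
      obtain ⟨X, hX, rfl, hX0⟩ := hX
      obtain ⟨Y, hY, rfl, hY0⟩ := hX'
      exact ⟨X + Y, (iso b L).add_mem hX hY, map_add _ _ _, fun l hl => by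
        rw [map_add, hX0 l hl, hY0 l hl, add_zero]⟩
    | smul c T hT hX =>
      obtain ⟨X, hX, rfl, hX0⟩ := hX
      exact ⟨c • X, (iso b L).smul_mem c hX, map_smul _ _ _, fun l hl => by
        rw [map_smul, hX0 l hl, smul_zero]⟩

/-- The blocks are in `L`. -/
theorem blk_mem (h : Setup ρ χ b 𝔤 L o) {i : ι} (hi : i ≠ o)
    (hp : ∀ j, i ≠ j → PairOK b 𝔤 L i j ∨ (j ≠ o ∧ PairOK b 𝔤 L j i)) 
    {Z : End k (V i)} (hZ : Z ∈ isoLie b 𝔤 i) : blk i Z ∈ iso b L := by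
  obtain ⟨X, hX, hXZ, hX0⟩ := h.ribet hi hp (Finset.univ.erase i) (Finset.notMem_erase i _) Z hZ
  have h1 : X = blk i Z := by
    refine (h.diag X (h.le hX.1)).ext (diag_blk i Z) fun j => ?_
    by_cases hj : j = i
    · subst hj
      rw [hXZ, cmp_blk]
    · rw [hX0 j (Finset.mem_erase.2 ⟨hj, Finset.mem_univ j⟩), cmp_blk_ne (Ne.symm hj)]
  rw [← h1]
  exact hX

end Setup

end Pool.Agent.K6.H79.ST
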