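import Mathlib
import Pool.Agent.K6.H79.ST.PairAlg

/-!
# Tensors on a direct summand
-/

set_option autoImplicit false
set_option linter.unusedSectionVars false

namespace Pool.Agent.K6.H79.ST

open Module Pool.Agent.Y114.RM Pool.Agent.Y114.TF Pool.Agent.H204R3.GP Pool.Agent.K6.H92.D4

variable {k : Type} [Field k] {ι : Type} [Fintype ι] [DecidableEq ι] {V : ι → Type}
  [∀ i, AddCommGroup (V i)] [∀ i, Module k (V i)] {Γ : Type} [Group Γ]
  {ρ : ∀ i, Representation k Γ (V i)}

variable (k V) in
/-- The projection of vectors and linear forms to the ones of a summand. -/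
noncomputable def toSummand (o : ι) :
    ((∀ i, V i) × Dual k (∀ i, V i)) →ₗ[k] (V o × Dual k (V o)) :=
  (LinearMap.proj o).prodMap (LinearMap.single k V o).dualMap

theorem toSummand_apply (o : ι) (v : (∀ i, V i) × Dual k (∀ i, V i)) :
    toSummand k V o v = (v.1 o, v.2 ∘ₗ LinearMap.single k V o) := rfl

theorem toSummand_surjective (o : ι) : Function.Surjective (toSummand k V o) := by
  rintro ⟨x, ξ⟩
  refine ⟨(Pi.single o x, ξ ∘ₗ LinearMap.proj o), ?_⟩
  rw [toSummand_apply]
  refine Prod.ext (Pi.single_eq_same o x) ?_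
  refine LinearMap.ext fun y => ?_
  change ξ ((Pi.single o y : ∀ i, V i) o) = ξ y
  rw [Pi.single_eq_same]

theorem toSummand_grp (o : ι) (γ : Γ) (v : (∀ i, V i) × Dual k (∀ i, V i)) :
    toSummand k V o (grp (sumRep ρ γ) (sumRep ρ γ⁻¹) v) =
      grp (ρ o γ) (ρ o γ⁻¹) (toSummand k V o v) := by
  refine Prod.ext rfl ?_
  refine LinearMap.ext fun y => ?_
  change v.2 (sumRep ρ γ⁻¹ (Pi.single o y)) = v.2 (Pi.single o (ρ o γ⁻¹ y))
  rw [(diag_sum ρ γ⁻¹).single, cmp_sum]

theorem toSummand_lie (o : ι) {X : End k (∀ i, V i)} (hX : Diag X)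
    (v : (∀ i, V i) × Dual k (∀ i, V i)) :
    toSummand k V o (lie X v) = lie (cmp o X) (toSummand k V o v) := by
  refine Prod.ext ?_ ?_
  · change X v.1 o = cmp o X (v.1 o)
    rw [hX.apply]
  · refine LinearMap.ext fun y => ?_
    change -(v.2 (X (Pi.single o y))) = -(v.2 (Pi.single o (cmp o X y)))
    rw [hX.single]

/-- Tate tensors on a summand are killed by the block of `X`, if Tate tensors on the sum are killed
by `X`. -/
theorem kills_block (o : ι) {m : ℕ} {X : End k (∀ i, V i)} (hX : Diag X)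
    (h : ∀ φ : Tensor k (∀ i, V i) m, TateTensor (sumRep ρ) φ → KillsTensor X φ)
    (φ : Tensor k (V o) m) (hφ : TateTensor (ρ o) φ) : KillsTensor (block o X) φ := by
  have h1 := h (φ.compLinearMap fun _ => toSummand k V o) (by
    obtain ⟨Δ, hΔ, hφ⟩ := hφ
    refine ⟨Δ, hΔ, fun γ hγ v => ?_⟩
    rw [MultilinearMap.compLinearMap_apply, MultilinearMap.compLinearMap_apply]
    simp only [toSummand_grp]
    exact hφ γ hγ fun l => toSummand k V o (v l))
  intro v
  choose u hu using fun l => toSummand_surjective (k := k) (V := V) o (v l)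
  have h2 := h1 u
  rw [← h2]
  refine Finset.sum_congr rfl fun l _ => ?_
  rw [MultilinearMap.compLinearMap_apply]
  congr 1
  funext j
  by_cases hj : j = l
  · subst hj
    rw [Function.update_self, Function.update_self, toSummand_lie o hX, hu]
    rfl
  · rw [Function.update_of_ne hj, Function.update_of_ne hj, hu]

end Pool.Agent.K6.H79.ST
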