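import Mathlib

/-!
# Sato-Tate forms on the sums of two motives: definitions
-/

set_option autoImplicit false

namespace Pool.Agent.K6.H79.ST

open Module Polynomial

section one

variable {k V Γ : Type} [Field k] [AddCommGroup V] [Module k V] [Group Γ]

/-- A multilinear form on `V` in the variables `κ`. -/
abbrev Form (k V κ : Type) [Field k] [AddCommGroup V] [Module k V] : Type :=
  MultilinearMap k (fun _ : κ => V) k

/-- The representation is semisimple under all subgroups of finite index. -/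
def Semisimple (ρ : Representation k Γ V) : Prop :=
  ∀ Δ : Subgroup Γ, Δ.FiniteIndex → ∀ U : Submodule k V, (∀ s ∈ Δ, ∀ x ∈ U, ρ s x ∈ U) →
    ∃ U' : Submodule k V, (∀ s ∈ Δ, ∀ x ∈ U', ρ s x ∈ U') ∧ IsCompl U U'

/-- `f` is a Sato-Tate form: on a subgroup of finite index the tensor `f ⊗ f` is multiplied by a power
of the multiplier `χ` (of the right weight). -/
def IsSatoTate (ρ : Representation k Γ V) (χ : Γ →* k) {κ : Type} [Fintype κ] (f : Form k V κ) :
    Prop :=
  ∃ Δ : Subgroup Γ, Δ.FiniteIndex ∧ ∀ s ∈ Δ, ∀ v v' : κ → V,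
    f (fun l => ρ s (v l)) * f (fun l => ρ s (v' l)) = χ s ^ Fintype.card κ * (f v * f v')

/-- The endomorphism `X` kills the form `f` (as an element of the Lie algebra). -/
def Kills (X : End k V) {κ : Type} [Fintype κ] [DecidableEq κ] (f : Form k V κ) : Prop :=
  ∀ v : κ → V, ∑ l, f (Function.update v l (X (v l))) = 0

/-- The conjecture of Sato and Tate, for a motive with the realization `ρ`, the multiplier `χ` and the Lie
algebra `𝔤` of the group `𝒢₁` (up to the finite groups of components): the representation is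
semisimple, and all Sato-Tate forms are killed by `𝔤`. -/
structure SatoTate (ρ : Representation k Γ V) (χ : Γ →* k) (𝔤 : Submodule k (End k V)) : Prop where
  semisimple : Semisimple ρ
  killed : ∀ (m : ℕ) (f : Form k V (Fin m)), IsSatoTate ρ χ f → ∀ X ∈ 𝔤, Kills X f

end one

section two

variable {k V₁ V₂ Γ : Type} [Field k] [AddCommGroup V₁] [Module k V₁] [AddCommGroup V₂]
  [Module k V₂] [Group Γ]

/-- The direct sum of two representations. -/
def sumRep (ρ₁ : Representation k Γ V₁) (ρ₂ : Representation k Γ V₂) :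
    Representation k Γ (V₁ × V₂) where
  toFun s := (ρ₁ s).prodMap (ρ₂ s)
  map_one' := by rw [map_one, map_one]; rfl
  map_mul' s t := by rw [map_mul, map_mul]; rfl

/-- The Lie algebra `𝔤` of the group of the sum of two motives respects the sum, and its images in
the endomorphisms of the two summands are `𝔤₁` and `𝔤₂`. -/
structure IsLieOfSum (𝔤₁ : Submodule k (End k V₁)) (𝔤₂ : Submodule k (End k V₂))
    (𝔤 : Submodule k (End k (V₁ × V₂))) : Prop where
  blocks : ∀ X ∈ 𝔤, ∃ X₁ ∈ 𝔤₁, ∃ X₂ ∈ 𝔤₂, X = X₁.prodMap X₂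
  first : ∀ X₁ ∈ 𝔤₁, ∃ X₂ : End k V₂, X₁.prodMap X₂ ∈ 𝔤
  second : ∀ X₂ ∈ 𝔤₂, ∃ X₁ : End k V₁, X₁.prodMap X₂ ∈ 𝔤

end two

section frob

variable {ℓ : ℕ} [Fact ℓ.Prime] {V₁ V₂ Γ : Type} [AddCommGroup V₁] [Module ℚ_[ℓ] V₁]
  [AddCommGroup V₂] [Module ℚ_[ℓ] V₂] [Group Γ]

/-- The multiplicative relations between `q`, the roots of `P₁` and the roots of `P₂` (in an
algebraic closure of `ℚ_ℓ`) split: if a product of roots of `P₁` and of `P₂` is a power of `q`, up to
a root of unity, then its first part is a power of `√q`, up to a root of unity. -/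
def RelationsSplit (q : ℕ) (P₁ P₂ : ℚ_[ℓ][X]) : Prop :=
  ∀ (a b : ℕ) (x : Fin a → AlgebraicClosure ℚ_[ℓ]) (y : Fin b → AlgebraicClosure ℚ_[ℓ]),
    (∀ l, aeval (x l) P₁ = 0) → (∀ l, aeval (y l) P₂ = 0) →
    ∀ N r : ℕ, 0 < N → ((∏ l, x l) * ∏ l, y l) ^ N = (q : AlgebraicClosure ℚ_[ℓ]) ^ r →
      ∃ M : ℕ, 0 < M ∧ (∏ l, x l) ^ (2 * M) = (q : AlgebraicClosure ℚ_[ℓ]) ^ (a * M)

/-- The matrix coefficients of the representation are continuous. -/
def Continuous' [TopologicalSpace Γ] (ρ : Representation ℚ_[ℓ] Γ V₁) : Prop :=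
  ∀ (x : V₁) (l : V₁ →ₗ[ℚ_[ℓ]] ℚ_[ℓ]), Continuous fun s => l (ρ s x)

variable [FiniteDimensional ℚ_[ℓ] V₁] [FiniteDimensional ℚ_[ℓ] V₂]

/-- `s` is a good element (in the applications: a Frobenius element): its multiplier is a positive integer
`q` (a power of the order of the residue field), its minimal polynomial on `V₁` is rational and
without multiple roots, and all relations between its eigenvalues on `V₁` and on `V₂` split. -/
def IsGood (ρ₁ : Representation ℚ_[ℓ] Γ V₁) (ρ₂ : Representation ℚ_[ℓ] Γ V₂) (χ : Γ →* ℚ_[ℓ])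
    (s : Γ) : Prop :=
  ∃ (q : ℕ) (R : ℚ[X]), 0 < q ∧ χ s = (q : ℚ_[ℓ]) ∧ Squarefree R ∧
    minpoly ℚ_[ℓ] (ρ₁ s) = R.map (algebraMap ℚ ℚ_[ℓ]) ∧
    RelationsSplit q (ρ₁ s).charpoly (ρ₂ s).charpoly

end frob

end Pool.Agent.K6.H79.ST
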