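import Mathlib
import Pool.Agent.K6.H79.ST.Defs

/-!
# The eigenvalues on a space of multilinear forms
-/

set_option autoImplicit false
set_option linter.unusedSectionVars false

namespace Pool.Agent.K6.H79.ST

open Module Polynomial TensorProduct

variable {k W : Type} [Field k] [AddCommGroup W] [Module k W] {κ : Type} [Fintype κ]
  [DecidableEq κ]

/-- The endomorphism `T` in the variables of `S`. -/
noncomputable def actOn (T : End k W) (S : Finset κ) : End k (Form k W κ) :=
  MultilinearMap.compLinearMapₗ (fun l => if l ∈ S then T else LinearMap.id)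

theorem actOn_apply (T : End k W) (S : Finset κ) (h : Form k W κ) (w : κ → W) :
    actOn T S h w = h fun l => (if l ∈ S then T else LinearMap.id : W →ₗ[k] W) (w l) := rfl

/-- The endomorphism `A` in the variable `l`. -/
noncomputable def one (l : κ) (A : End k W) : End k (Form k W κ) :=
  MultilinearMap.compLinearMapₗ (Function.update (fun _ => (LinearMap.id : W →ₗ[k] W)) l A)

theorem one_apply (l : κ) (A : End k W) (h : Form k W κ) (w : κ → W) :
    one l A h w = h (Function.update w l (A (w l))) := by
  change h (fun i => (Function.update (fun _ => (LinearMap.id : W →ₗ[k] W)) l A) i (w i)) = _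
  congr 1
  funext i
  by_cases hi : i = l
  · subst hi
    rw [Function.update_self, Function.update_self]
  · rw [Function.update_of_ne hi, Function.update_of_ne hi]
    rfl

theorem one_add (l : κ) (A B : End k W) : one l (A + B) = one l A + one l B := by
  ext h w
  rw [LinearMap.add_apply, add_apply, one_apply, one_apply, one_apply,
    LinearMap.add_apply, MultilinearMap.map_update_add]

theorem one_smul' (l : κ) (c : k) (A : End k W) : one l (c • A) = c • one l A := by
  ext h w
  rw [LinearMap.smul_apply, smul_apply, one_apply, one_apply,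
    LinearMap.smul_apply, MultilinearMap.map_update_smul]

theorem one_one (l : κ) : one (κ := κ) l (1 : End k W) = 1 := by
  ext h w
  rw [one_apply]
  change h (Function.update w l (w l)) = h w
  rw [Function.update_eq_self]

theorem one_mul' (l : κ) (A B : End k W) : one (κ := κ) l A * one l B = one l (B * A) := by
  ext h w
  rw [Module.End.mul_apply, one_apply, one_apply, one_apply, Function.update_self,
    Function.update_idem]
  rfl

theorem one_zero (l : κ) : one (κ := κ) l (0 : End k W) = 0 := by
  have h := one_smul' (κ := κ) l (0 : k) (0 : End k W)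
  rwa [zero_smul, zero_smul] at h

theorem one_pow' (l : κ) (A : End k W) (n : ℕ) : one (κ := κ) l (A ^ n) = (one l A) ^ n := by
  induction n with
  | zero => rw [pow_zero, pow_zero, one_one]
  | succ n ih => rw [pow_succ, pow_succ', ← one_mul', ih]

theorem aeval_one' (l : κ) (A : End k W) (p : k[X]) :
    aeval (one (κ := κ) l A) p = one l (aeval A p) := by
  induction p using Polynomial.induction_on' with
  | add p q hp hq => rw [map_add, map_add, one_add, hp, hq]
  | monomial n a =>
    rw [← C_mul_X_pow_eq_monomial, map_mul, map_mul, aeval_C, aeval_C, map_pow, map_pow, aeval_X,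
      aeval_X, ← Algebra.smul_def, ← Algebra.smul_def, one_smul', one_pow']

theorem actOn_empty (T : End k W) : actOn T (∅ : Finset κ) = 1 := by
  ext h w
  rw [actOn_apply]
  simp

theorem actOn_insert (T : End k W) {l : κ} {S : Finset κ} (hl : l ∉ S) :
    actOn T (insert l S) = one l T * actOn T S := by
  ext h w
  rw [Module.End.mul_apply, one_apply, actOn_apply, actOn_apply]
  congr 1
  funext i
  by_cases hi : i = l
  · subst hi
    rw [Function.update_self, if_pos (Finset.mem_insert_self _ _), if_neg hl]
    rfl
  · rw [Function.update_of_ne hi]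
    by_cases hS : i ∈ S
    · rw [if_pos hS, if_pos (Finset.mem_insert_of_mem hS)]
    · rw [if_neg hS, if_neg (fun h => (Finset.mem_insert.1 h).elim hi hS)]

theorem actOn_comm (T : End k W) {l : κ} {S : Finset κ} (hl : l ∉ S) :
    one l T * actOn T S = actOn T S * one l T := by
  ext h w
  rw [Module.End.mul_apply, Module.End.mul_apply, one_apply, actOn_apply, actOn_apply, one_apply]
  congr 1
  funext i
  by_cases hi : i = l
  · subst hi
    rw [Function.update_self, Function.update_self, if_neg hl]
    rfl
  · rw [Function.update_of_ne hi, Function.update_of_ne hi]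

/-- The eigenvalues of `T` in the variables of `S` are products of eigenvalues of `T`. -/
theorem eig_actOn [FiniteDimensional k W] {Ω : Type} [Field Ω] [IsAlgClosed Ω] [Algebra k Ω]
    {T T' : End k W} (hT : T * T' = 1) (S : Finset κ) :
    ∀ c : Ω, Module.End.HasEigenvalue ((actOn T S).baseChange Ω) c →
      ∃ y : κ → Ω, (∀ l ∈ S, aeval (y l) T.charpoly = 0) ∧ ∏ l ∈ S, y l = c := by
  induction S using Finset.induction_on with
  | empty =>
    intro c hc
    obtain ⟨v, hv⟩ := hc.exists_hasEigenvector
    have h1 : (actOn T (∅ : Finset κ)).baseChange Ω v = c • v := hv.apply_eq_smul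
    rw [actOn_empty] at h1
    have h2 : ((1 : End k (Form k W κ)).baseChange Ω) v = v := by
      have h3 : (1 : End k (Form k W κ)).baseChange Ω = LinearMap.id := LinearMap.baseChange_id
      rw [h3]
      rfl
    rw [h2] at h1
    refine ⟨fun _ => 1, fun l hl => absurd hl (Finset.notMem_empty l), ?_⟩
    rw [Finset.prod_const_one]
    have h3 : (1 - c) • v = 0 := by
      refine (sub_smul (1 : Ω) c v).trans ?_
      rw [one_smul, ← h1]
      exact sub_self v
    have h4 := (smul_eq_zero.1 h3).resolve_right hv.2
    exact sub_eq_zero.1 h4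
  | insert l S hl ih =>
    intro c hc
    set A : End Ω (Ω ⊗[k] Form k W κ) := (one l T).baseChange Ω with hA
    set C : End Ω (Ω ⊗[k] Form k W κ) := (actOn T S).baseChange Ω with hC
    have h1 : (actOn T (insert l S)).baseChange Ω = A * C := by
      rw [actOn_insert T hl, hA, hC, ← LinearMap.baseChange_mul]
    have h2 : A * C = C * A := by
      rw [hA, hC, ← LinearMap.baseChange_mul, ← LinearMap.baseChange_mul, actOn_comm T hl]
    rw [h1] at hc
    have hinv : ((one (κ := κ) l T').baseChange Ω) * A = 1 := by
      rw [hA, ← LinearMap.baseChange_mul, one_mul', hT, one_one]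
      exact LinearMap.baseChange_id
    let E := (A * C).eigenspace c
    have hE : E ≠ ⊥ := hc
    have hst : ∀ x ∈ E, A x ∈ E := by
      intro x hx
      rw [Module.End.mem_eigenspace_iff] at hx ⊢
      calc (A * C) (A x) = A ((C * A) x) := rfl
        _ = A ((A * C) x) := by rw [← h2]
        _ = A (c • x) := by rw [hx]
        _ = c • A x := map_smul _ _ _
    have hnt : Nontrivial E := Submodule.nontrivial_iff_ne_bot.2 hE
    let B : End Ω E := A.restrict hst
    obtain ⟨y, hy⟩ := Module.End.exists_eigenvalue (K := Ω) (V := E) B
    obtain ⟨v, hv⟩ := hy.exists_hasEigenvector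
    have hv1 : A (v : Ω ⊗[k] Form k W κ) = y • (v : Ω ⊗[k] Form k W κ) := by
      have h3 : B v = y • v := hv.apply_eq_smul
      exact congrArg Subtype.val h3
    have hv0 : (v : Ω ⊗[k] Form k W κ) ≠ 0 := fun h => hv.2 (Subtype.ext h)
    have hy0 : y ≠ 0 := by
      rintro rfl
      rw [zero_smul] at hv1
      apply hv0
      have h3 := LinearMap.congr_fun hinv (v : Ω ⊗[k] Form k W κ)
      rw [Module.End.mul_apply, hv1, map_zero] at h3
      exact h3.symm
    have hv2 : (A * C) (v : Ω ⊗[k] Form k W κ) = c • (v : Ω ⊗[k] Form k W κ) :=
      Module.End.mem_eigenspace_iff.1 v.2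
    have hv3 : C (v : Ω ⊗[k] Form k W κ) = (c / y) • (v : Ω ⊗[k] Form k W κ) := by
      rw [h2, Module.End.mul_apply, hv1, map_smul] at hv2
      rw [div_eq_mul_inv, mul_comm, mul_smul, ← hv2, smul_smul, inv_mul_cancel₀ hy0, one_smul]
    obtain ⟨z, hz1, hz2⟩ := ih (c / y) (Module.End.hasEigenvalue_of_hasEigenvector
      ⟨Module.End.mem_eigenspace_iff.2 hv3, hv0⟩)
    refine ⟨Function.update z l y, fun i hi => ?_, ?_⟩
    · by_cases hil : i = l
      · subst hil
        rw [Function.update_self]
        have h3 : aeval A T.charpoly = 0 := by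
          have h4 : aeval (one (κ := κ) i T) T.charpoly = 0 := by
            rw [aeval_one', LinearMap.aeval_self_charpoly, one_zero]
          have h5 := Polynomial.aeval_algHom_apply
            (Module.End.baseChangeHom k Ω (Form k W κ)) (one (κ := κ) i T) T.charpoly
          rw [h4, map_zero] at h5
          exact h5
        have h4 : A.HasEigenvector y (v : Ω ⊗[k] Form k W κ) :=
          ⟨Module.End.mem_eigenspace_iff.2 hv1, hv0⟩
        have h5 := Module.End.aeval_apply_of_hasEigenvector
          (p := T.charpoly.map (algebraMap k Ω)) h4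
        rw [Polynomial.aeval_map_algebraMap, h3, LinearMap.zero_apply] at h5
        have h6 := (smul_eq_zero.1 h5.symm).resolve_right hv0
        rwa [Polynomial.eval_map_algebraMap] at h6
      · rw [Function.update_of_ne hil]
        exact hz1 i ((Finset.mem_insert.1 hi).resolve_left hil)
    · have h3 : ∀ i ∈ S, Function.update z l y i = z i := fun i hi =>
        Function.update_of_ne (by rintro rfl; exact hl hi) _ _
      rw [Finset.prod_insert hl, Function.update_self, Finset.prod_congr rfl h3, hz2,
        mul_div_cancel₀ _ hy0]

/-- The roots of the characteristic polynomial of the operator on the forms. -/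
theorem root_form [FiniteDimensional k W] {Ω : Type} [Field Ω] [IsAlgClosed Ω] [Algebra k Ω]
    {T T' : End k W} (hT : T * T' = 1) {β : Ω}
    (hβ : aeval β (actOn (κ := κ) T Finset.univ).charpoly = 0) :
    ∃ y : κ → Ω, (∀ l, aeval (y l) T.charpoly = 0) ∧ ∏ l, y l = β := by
  obtain ⟨y, hy, hy'⟩ := eig_actOn (κ := κ) (Ω := Ω) hT Finset.univ β (by
    rw [Module.End.hasEigenvalue_iff_isRoot_charpoly, LinearMap.charpoly_baseChange,
      Polynomial.IsRoot, Polynomial.eval_map_algebraMap]
    exact hβ)
  exact ⟨y, fun l => hy l (Finset.mem_univ l), hy'⟩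

end Pool.Agent.K6.H79.ST
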