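import Mathlib
import Pool.Agent.K6.H79.TX.Open
import Pool.Agent.K6.H79.ST.Space

/-!
# Forms with values in a representation, and one element whose relations split
-/

set_option autoImplicit false
set_option linter.unusedSectionVars false

namespace Pool.Agent.K6.H79.ST

open Module Polynomial Pool.Agent.H204R3.GP Pool.Agent.H204R3.SP
  Pool.Agent.K6.H79.MU Pool.Agent.K6.H79.TX TensorProduct Topology Filter

/-- `s` acts on `V` semisimply with a rational minimal polynomial, and the multiplier `q`. -/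
structure IsPureAt {ℓ : ℕ} [Fact ℓ.Prime] {V Γ : Type} [AddCommGroup V] [Module ℚ_[ℓ] V] [Group Γ]
    (ρ : Representation ℚ_[ℓ] Γ V) (χ : Γ →* ℚ_[ℓ]) (s : Γ) (q : ℕ) (R : ℚ[X]) : Prop where
  pos : 0 < q
  cyclotomic : χ s = (q : ℚ_[ℓ])
  squarefree : Squarefree R
  minpoly_eq : minpoly ℚ_[ℓ] (ρ s) = R.map (algebraMap ℚ ℚ_[ℓ])

/-- The relations split, for the products of roots of `R` with the variables `κ`. -/
def SplitFor {ℓ : ℕ} [Fact ℓ.Prime] {H : Type} [AddCommGroup H] [Module ℚ_[ℓ] H]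
    [FiniteDimensional ℚ_[ℓ] H] (A : End ℚ_[ℓ] H) (q : ℕ) (R : ℚ[X]) (κ : Type) [Fintype κ] :
    Prop :=
  ∀ β : PadicAlgCl ℓ, aeval β A.charpoly = 0 → ∀ x : κ → PadicAlgCl ℓ,
    (∀ l, aeval (x l) R = 0) → ∀ N r : ℕ, 0 < N →
    (∏ l, x l) ^ N * β ^ N = (q : PadicAlgCl ℓ) ^ r →
      ∃ M : ℕ, 0 < M ∧ (∏ l, x l) ^ (2 * M) = (q : PadicAlgCl ℓ) ^ (Fintype.card κ * M)

section eig

variable {ℓ : ℕ} [Fact ℓ.Prime] {V Γ : Type} [AddCommGroup V] [Module ℚ_[ℓ] V]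
  [FiniteDimensional ℚ_[ℓ] V] [Group Γ] {ρ : Representation ℚ_[ℓ] Γ V} {χ : Γ →* ℚ_[ℓ]} {s : Γ}
  {q : ℕ} {R : ℚ[X]}

theorem eigbasis' (h : IsPureAt ρ χ s q R) :
    ∃ (ι : Type) (e : Basis ι (PadicAlgCl ℓ) (PadicAlgCl ℓ ⊗[ℚ_[ℓ]] V)) (c : ι → PadicAlgCl ℓ),
      (∀ x, bcr ρ (PadicAlgCl ℓ) s (e x) = c x • e x) ∧ ∀ x, aeval (c x) R = 0 := by
  classical
  set Ω := PadicAlgCl ℓ
  let T : End Ω (Ω ⊗[ℚ_[ℓ]] V) := (ρ s).baseChange Ω
  have hT : bcr ρ Ω s = T := rfl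
  have h0 : aeval T (R.map (algebraMap ℚ Ω)) = 0 := by
    have h1 : aeval (ρ s) (R.map (algebraMap ℚ ℚ_[ℓ])) = 0 := by
      rw [← h.minpoly_eq]
      exact minpoly.aeval _ _
    have h2 : ∀ P : ℚ_[ℓ][X], aeval T (P.map (algebraMap ℚ_[ℓ] Ω)) = (aeval (ρ s) P).baseChange Ω := by
      intro P
      rw [Polynomial.aeval_map_algebraMap]
      have h3 := Polynomial.aeval_algHom_apply (Module.End.baseChangeHom ℚ_[ℓ] Ω V) (ρ s) P
      exact h3
    have h3 : R.map (algebraMap ℚ Ω) = (R.map (algebraMap ℚ ℚ_[ℓ])).map (algebraMap ℚ_[ℓ] Ω) := by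
      rw [Polynomial.map_map]
      congr 1
    rw [h3, h2, h1, LinearMap.baseChange_zero]
  have hsep : (R.map (algebraMap ℚ Ω)).Separable :=
    (PerfectField.separable_iff_squarefree.2 h.squarefree).map
  have hss : T.IsSemisimple := Module.End.isSemisimple_of_squarefree_aeval_eq_zero
    hsep.squarefree h0
  have htop : ⨆ μ, T.eigenspace μ = ⊤ := by
    rw [← Module.End.iSup_maxGenEigenspace_eq_top T]
    exact iSup_congr fun μ => (hss.isFinitelySemisimple.maxGenEigenspace_eq_eigenspace μ).symm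
  let S : Set (Ω ⊗[ℚ_[ℓ]] V) := {v | ∃ μ, v ∈ T.eigenspace μ}
  have hS : Submodule.span Ω S = ⊤ := by
    rw [eq_top_iff, ← htop]
    exact iSup_le fun μ v hv => Submodule.subset_span ⟨μ, hv⟩
  obtain ⟨B, hBS, hBs, hBli⟩ := exists_linearIndependent Ω S
  rw [hS] at hBs
  let e : Basis B Ω (Ω ⊗[ℚ_[ℓ]] V) := Basis.mk hBli (by
    rw [Subtype.range_coe_subtype, Set.ofPred_mem_eq, hBs])
  have hc : ∀ x : B, ∃ μ, (x : Ω ⊗[ℚ_[ℓ]] V) ∈ T.eigenspace μ := fun x => hBS x.2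
  choose c hc using hc
  have he : ∀ x, e x = (x : Ω ⊗[ℚ_[ℓ]] V) := fun x => Basis.mk_apply hBli _ x
  have hcx : ∀ x, T (e x) = c x • e x := by
    intro x
    rw [he]
    exact Module.End.mem_eigenspace_iff.1 (hc x)
  refine ⟨B, e, c, hcx, fun x => ?_⟩
  have h1 : T.HasEigenvector (c x) (e x) :=
    ⟨Module.End.mem_eigenspace_iff.2 (hcx x), e.ne_zero x⟩
  have h2 := Module.End.aeval_apply_of_hasEigenvector (p := R.map (algebraMap ℚ Ω)) h1
  rw [h0, LinearMap.zero_apply] at h2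
  have h3 := (smul_eq_zero.1 h2.symm).resolve_right (e.ne_zero x)
  rw [Polynomial.eval_map_algebraMap] at h3
  exact h3

/-- **A good element acts on the classes by a root of unity times a power of `√q`.** -/
theorem dense_split {H : Type} [AddCommGroup H] [Module ℚ_[ℓ] H] [FiniteDimensional ℚ_[ℓ] H]
    (h : IsPureAt ρ χ s q R) (σ : Representation ℚ_[ℓ] Γ H)
    {κ : Type} [Fintype κ] [DecidableEq κ] (hun : SplitFor (σ s⁻¹) q R κ) {r : ℕ}
    (φ : MultilinearMap ℚ_[ℓ] (fun _ : κ => V) H) (Δ : Subgroup Γ) (hΔ : Δ.FiniteIndex)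
    (hφ : ∀ t ∈ Δ, FixedBy ρ χ σ r φ t) :
    ∀ v : κ → V, φ (fun l => ρ (s ^ (2 * (2 * finrank ℚ_[ℓ] V ^ Fintype.card κ).factorial)) (v l)) =
      (q : ℚ_[ℓ]) ^ (Fintype.card κ * (2 * finrank ℚ_[ℓ] V ^ Fintype.card κ).factorial) • φ v := by
  classical
  let Ω : Type := PadicAlgCl ℓ
  obtain ⟨ν⟩ := Pool.Agent.R401.Iso.exists_iso ℓ
  obtain ⟨ι, e, c, he, hc⟩ : ∃ (ι : Type) (e : Basis ι Ω (Ω ⊗[ℚ_[ℓ]] V)) (c : ι → Ω),
      (∀ x, bcr ρ Ω s (e x) = c x • e x) ∧ ∀ x, aeval (c x) R = 0 := eigbasis' h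
  let b := Module.finBasis ℚ_[ℓ] V
  obtain ⟨N, hN, -, hNΔ⟩ := Subgroup.exists_pow_mem_of_index_ne_zero hΔ.index_ne_zero s
  have hpow : ∀ (n : ℕ) (x : ι), bcr ρ Ω (s ^ n) (e x) = (c x) ^ n • e x := by
    intro n x
    induction n with
    | zero => rw [pow_zero, pow_zero, one_smul, map_one]; rfl
    | succ n ih =>
      rw [pow_succ, map_mul, pow_succ, Module.End.mul_apply, he]
      change bcr ρ Ω (s ^ n) ((c x) • e x) = _
      rw [map_smul, ih, smul_smul, mul_comm]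
  have hq0 : (q : ℚ_[ℓ]) ≠ 0 := by exact_mod_cast h.pos.ne'
  have hR0 : R ≠ 0 := h.squarefree.ne_zero
  have hdeg : R.natDegree ≤ finrank ℚ_[ℓ] V := by
    have h1 : (R.map (algebraMap ℚ ℚ_[ℓ])).natDegree ≤ (ρ s).charpoly.natDegree := by
      rw [← h.minpoly_eq]
      exact Polynomial.natDegree_le_of_dvd (LinearMap.minpoly_dvd_charpoly (ρ s))
        (LinearMap.charpoly_monic _).ne_zero
    rw [LinearMap.charpoly_natDegree, Polynomial.natDegree_map] at h1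
    exact h1
  let rt : ι → Rt R := fun x => ⟨ν (c x), by
    have h1 := congrArg ν (hc x)
    rw [map_zero] at h1
    rw [← h1, Polynomial.aeval_def, Polynomial.aeval_def]
    have h4 := Polynomial.hom_eval₂ R (algebraMap ℚ Ω) (ν : Ω →+* ℂ) (c x)
    refine Eq.trans ?_ h4.symm
    congr 1
    exact Subsingleton.elim _ _⟩
  let i := Fintype.card κ
  let E := Fintype.equivFin κ
  -- the eigenvalues
  have key : ∀ (l : H →ₗ[ℚ_[ℓ]] ℚ_[ℓ]) (I : κ → ι),
      bcm (Ω := Ω) b (l.compMultilinearMap φ) (fun x => e (I x)) ≠ 0 →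
      ∃ M : ℕ, 0 < M ∧ (∏ x, ν (c (I x))) ^ (2 * M) = (q : ℂ) ^ (i * M) := by
    intro l I hl
    let A : End ℚ_[ℓ] H := ((q : ℚ_[ℓ]) ^ (N * r)) • (σ s) ^ N
    have hA : ∀ l : H →ₗ[ℚ_[ℓ]] ℚ_[ℓ], (l ∘ₗ A).compMultilinearMap φ =
        (l.compMultilinearMap φ).compLinearMap fun _ => ρ (s ^ N) := by
      intro l
      ext v
      have h1 := hφ _ hNΔ v
      rw [LinearMap.compMultilinearMap_apply, MultilinearMap.compLinearMap_apply,
        LinearMap.compMultilinearMap_apply]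
      have h2 : A (φ v) = φ fun x => ρ (s ^ N) (v x) := by
        rw [h1, map_pow χ, h.cyclotomic, map_pow σ, ← pow_mul]
        rfl
      rw [LinearMap.comp_apply, h2]
    have h1 := root_of_functional A (evl b φ fun x => e (I x)) ((∏ x, c (I x)) ^ N)
      (fun l => by
        rw [evl_apply, evl_apply, hA, bcm_comp]
        simp only [hpow]
        rw [MultilinearMap.map_smul_univ, smul_eq_mul, Finset.prod_pow]) hl
    have hS : σ s⁻¹ * σ s = 1 := by rw [← map_mul, inv_mul_cancel, map_one]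
    obtain ⟨β, hβ1, hβ2⟩ := exists_root_pow (σ s⁻¹) (σ s) hS
      (pow_ne_zero (N * r) hq0) hN h1
    obtain ⟨M, hM, h3⟩ := hun β hβ1 (fun x => c (I x)) (fun x => hc (I x)) N (N * r) hN (by
      rw [hβ2, map_pow, map_natCast])
    refine ⟨M, hM, ?_⟩
    have h4 := congrArg ν h3
    rw [map_pow, map_prod, map_pow, map_natCast] at h4
    exact h4
  -- functionals separate points
  have hsep : ∀ x : H, (∀ l : H →ₗ[ℚ_[ℓ]] ℚ_[ℓ], l x = 0) → x = 0 := fun x hx =>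
    (Module.forall_dual_apply_eq_zero_iff ℚ_[ℓ] x).1 hx
  have hroot : ∀ I : κ → ι, ∀ y : Fin i, aeval (ν (c (I (E.symm y)))) R = 0 := fun I y =>
    (rt (I (E.symm y))).2
  have hprod : ∀ I : κ → ι, ∏ y : Fin i, ν (c (I (E.symm y))) = ∏ x, ν (c (I x)) := fun I =>
    Fintype.prod_equiv E.symm _ _ fun y => rfl
  intro v
  rw [← sub_eq_zero]
  apply hsep
  intro l
  rw [map_sub, sub_eq_zero, map_smul]
  set M₀ := (2 * finrank ℚ_[ℓ] V ^ Fintype.card κ).factorial with hM₀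
  have h1 : bcm (Ω := Ω) b ((l.compMultilinearMap φ).compLinearMap fun _ => ρ (s ^ (2 * M₀))) =
      (algebraMap ℚ_[ℓ] Ω ((q : ℚ_[ℓ]) ^ (i * M₀))) •
        bcm (Ω := Ω) b (l.compMultilinearMap φ) := by
    refine Basis.ext_multilinear (fun _ => e) fun I => ?_
    rw [bcm_comp, smul_apply]
    simp only [hpow]
    rw [MultilinearMap.map_smul_univ]
    by_cases h2 : bcm (Ω := Ω) b (l.compMultilinearMap φ) (fun x => e (I x)) = 0
    · rw [h2, smul_zero, smul_zero]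
    · obtain ⟨M, hM, h3⟩ := key l I h2
      have h4 := uniform_exp hR0 h.pos (i := i) hdeg (fun y => rt (I (E.symm y))) hM
        (by
          have h5 : ∏ y : Fin i, (rt (I (E.symm y))).1 = ∏ x, ν (c (I x)) := hprod I
          rw [h5]
          exact h3)
      have h5 : ∏ y : Fin i, (rt (I (E.symm y))).1 = ∏ x, ν (c (I x)) := hprod I
      rw [h5] at h4
      congr 1
      apply ν.injective
      rw [Finset.prod_pow, map_pow, map_prod]
      refine Eq.trans h4 ?_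
      simp only [map_pow, map_natCast]
      rfl
  have h2 := bcm_one (Ω := Ω) b ((l.compMultilinearMap φ).compLinearMap
    fun _ => ρ (s ^ (2 * M₀))) v
  rw [h1, smul_apply, bcm_one, smul_eq_mul, ← map_mul] at h2
  exact ((algebraMap ℚ_[ℓ] Ω).injective h2).symm

end eig

end Pool.Agent.K6.H79.ST
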