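import Mathlib
import Pool.Agent.K6.H79.ST.Dense

/-!
# Dense sets of elements whose relations split
-/

set_option autoImplicit false
set_option linter.unusedSectionVars false

namespace Pool.Agent.K6.H79.ST

open Module Polynomial Pool.Agent.H204R3.GP Pool.Agent.H204R3.SP
  Pool.Agent.K6.H79.MU Pool.Agent.K6.H79.TX TensorProduct Topology Filter

section main

variable {ℓ : ℕ} [Fact ℓ.Prime] {V H Γ : Type} [AddCommGroup V] [Module ℚ_[ℓ] V]
  [FiniteDimensional ℚ_[ℓ] V] [AddCommGroup H] [Module ℚ_[ℓ] H] [FiniteDimensional ℚ_[ℓ] H]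
  [Group Γ] [TopologicalSpace Γ] [IsTopologicalGroup Γ] {ρ : Representation ℚ_[ℓ] Γ V}
  {χ : Γ →* ℚ_[ℓ]} {σ : Representation ℚ_[ℓ] Γ H} {κ : Type} [Fintype κ] [DecidableEq κ]

/-- The relations at `s` between the eigenvalues on `V` and on `H` split. -/
def GoodFor (ρ : Representation ℚ_[ℓ] Γ V) (χ : Γ →* ℚ_[ℓ]) (σ : Representation ℚ_[ℓ] Γ H)
    (κ : Type) [Fintype κ] (s : Γ) : Prop :=
  ∃ (q : ℕ) (R : ℚ[X]), IsPureAt ρ χ s q R ∧ SplitFor (σ s⁻¹) q R κ

theorem closure_split (hρ : ContCoef ρ) (hχ : Continuous χ) {S : Set Γ} (hS : Dense S)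
    (hgood : ∀ s ∈ S, GoodFor ρ χ σ κ s) {r m : ℕ} (hm : Fintype.card κ = 2 * m)
    (φ : MultilinearMap ℚ_[ℓ] (fun _ : κ => V) H) (Δ : Subgroup Γ) (hΔ : Δ.FiniteIndex)
    (hφ : ∀ t ∈ Δ, FixedBy ρ χ σ r φ t) (s : Γ) (v : κ → V) :
    φ (fun l => ρ (s ^ (2 * (2 * finrank ℚ_[ℓ] V ^ Fintype.card κ).factorial)) (v l)) =
      χ s ^ (2 * m * (2 * finrank ℚ_[ℓ] V ^ Fintype.card κ).factorial) • φ v := by
  set M₀ := (2 * finrank ℚ_[ℓ] V ^ Fintype.card κ).factorial with hM₀
  rw [← sub_eq_zero]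
  refine (Module.forall_dual_apply_eq_zero_iff ℚ_[ℓ] _).1 fun l => ?_
  rw [map_sub, sub_eq_zero, map_smul, smul_eq_mul]
  have h1 : Continuous fun s : Γ => l (φ fun i => ρ (s ^ (2 * M₀)) (v i)) :=
    (cont_form hρ (l.compMultilinearMap φ) v).comp (continuous_pow (2 * M₀))
  have h2 : Continuous fun s : Γ => χ s ^ (2 * m * M₀) * l (φ v) :=
    (hχ.pow _).mul continuous_const
  have h3 := Continuous.ext_on hS h1 h2 (fun s hs => by
    obtain ⟨q, R, hw, hun⟩ := hgood s hs
    have h4 := dense_split hw σ hun φ Δ hΔ hφ v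
    rw [← hM₀] at h4
    change l (φ fun i => ρ (s ^ (2 * M₀)) (v i)) = χ s ^ (2 * m * M₀) * l (φ v)
    rw [h4, map_smul, hw.cyclotomic, hm]
    rfl)
  exact congrFun h3 s

/-- **A subgroup of finite index acts by a power of the cyclotomic character.** -/
theorem fixed_split [CompactSpace Γ] (hρ : ContCoef ρ) (hχ : Continuous χ) {S : Set Γ}
    (hS : Dense S) (hgood : ∀ s ∈ S, GoodFor ρ χ σ κ s) {r m : ℕ} (hm : Fintype.card κ = 2 * m)
    (φ : MultilinearMap ℚ_[ℓ] (fun _ : κ => V) H) (Δ : Subgroup Γ) (hΔ : Δ.FiniteIndex)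
    (hφ : ∀ t ∈ Δ, FixedBy ρ χ σ r φ t) :
    ∃ U : Subgroup Γ, U.FiniteIndex ∧ ∀ u ∈ U, ∀ v : κ → V,
      φ (fun l => ρ u (v l)) = χ u ^ m • φ v := by
  classical
  set M₀ := (2 * finrank ℚ_[ℓ] V ^ Fintype.card κ).factorial with hM₀
  have hM₀pos : 0 < M₀ := Nat.factorial_pos _
  -- the translates
  have h1 : ∀ (t s : Γ) (v : κ → V), φ (fun l => ρ t (ρ (s ^ (2 * M₀)) (v l))) =
      χ s ^ (2 * m * M₀) • φ fun l => ρ t (v l) := by
    intro t s v
    have h2 := closure_split hρ hχ hS hgood hm (transl ρ σ φ t)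
      (Δ.comap (MulAut.conj t).toMonoidHom) (finiteIndex_comap _ hΔ) (transl_fixed hφ t) s v
    rw [← hM₀, transl_apply, transl_apply, ← map_smul] at h2
    have hinj : Function.Injective (σ t⁻¹) := by
      intro x y hxy
      have h3 := congrArg (σ t) hxy
      rw [← Module.End.mul_apply, ← Module.End.mul_apply, ← map_mul, mul_inv_cancel, map_one] at h3
      exact h3
    exact hinj h2
  -- the representation on the forms
  let Rg : Γ →* End ℚ_[ℓ] (MultilinearMap ℚ_[ℓ] (fun _ : κ => V) H) :=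
    { toFun := fun s => χ s ^ m • MultilinearMap.compLinearMapₗ (fun _ => ρ s⁻¹)
      map_one' := by
        ext g v
        simp only [map_one, one_pow, one_smul, inv_one]
        rfl
      map_mul' := by
        intro s t
        ext g v
        change χ (s * t) ^ m • g (fun l => ρ (s * t)⁻¹ (v l)) =
          χ s ^ m • (χ t ^ m • g (fun l => ρ t⁻¹ (ρ s⁻¹ (v l))))
        have h2 : ∀ x : V, ρ t⁻¹ (ρ s⁻¹ x) = ρ (s * t)⁻¹ x := by
          intro x
          rw [mul_inv_rev, map_mul]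
          rfl
        simp only [h2]
        rw [smul_smul, ← mul_pow, ← map_mul] }
  have hRg : ∀ s g v, Rg s g v = χ s ^ m • g fun l => ρ s⁻¹ (v l) := fun s g v => rfl
  let W : Submodule ℚ_[ℓ] (MultilinearMap ℚ_[ℓ] (fun _ : κ => V) H) :=
    { carrier := {g | ∀ (t s : Γ) (v : κ → V), g (fun l => ρ t (ρ (s ^ (2 * M₀)) (v l))) =
        χ s ^ (2 * m * M₀) • g fun l => ρ t (v l)}
      add_mem' := by
        intro g g' hg hg' t s v
        rw [MultilinearMap.add_apply, MultilinearMap.add_apply, hg, hg', smul_add]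
      zero_mem' := by
        intro t s v
        simp
      smul_mem' := by
        intro a g hg t s v
        rw [MultilinearMap.smul_apply, MultilinearMap.smul_apply, hg, smul_comm] }
  have hWst : ∀ u, ∀ g ∈ W, Rg u g ∈ W := by
    intro u g hg t s v
    rw [hRg, hRg]
    have h2 : ∀ x : V, ρ u⁻¹ (ρ t x) = ρ (u⁻¹ * t) x := by
      intro x
      rw [map_mul]
      rfl
    simp only [h2]
    rw [hg (u⁻¹ * t) s v, smul_comm]
  let f : Γ →* End ℚ_[ℓ] W :=
    { toFun := fun γ => (Rg γ).restrict (hWst γ)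
      map_one' := by
        refine LinearMap.ext fun X => Subtype.ext ?_
        rw [LinearMap.coe_restrict_apply, map_one]
        rfl
      map_mul' := fun γ δ => by
        refine LinearMap.ext fun X => Subtype.ext ?_
        rw [LinearMap.coe_restrict_apply, Module.End.mul_apply, LinearMap.coe_restrict_apply,
          LinearMap.coe_restrict_apply, map_mul]
        rfl }
  have hfker := open_kernel f (by
    intro x c
    obtain ⟨c', hc'⟩ := LinearMap.exists_extend c
    have h2 : ∀ s, c (f s x) = c' (Rg s x) := by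
      intro s
      rw [← hc']
      rfl
    have h3 : Continuous fun s => c' (Rg s (x : MultilinearMap ℚ_[ℓ] (fun _ : κ => V) H)) := by
      refine cont_space (fun v l => ?_) c'
      have h4 : ∀ s, l (Rg s (x : MultilinearMap ℚ_[ℓ] (fun _ : κ => V) H) v) =
          χ s ^ m * (l.compMultilinearMap (x : MultilinearMap ℚ_[ℓ] (fun _ : κ => V) H))
            fun i => ρ s⁻¹ (v i) := by
        intro s
        rw [hRg, map_smul]
        rfl
      simp only [h4]
      exact (hχ.pow m).mul ((cont_form hρ _ v).comp continuous_inv)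
    exact h3.congr fun s => (h2 s).symm) (fun γ => ⟨2 * M₀, by omega, by
      rw [← map_pow]
      refine LinearMap.ext fun X => Subtype.ext ?_
      change Rg (γ ^ (2 * M₀)) X = X
      ext v
      rw [hRg]
      have h2 := X.2 1 γ⁻¹ v
      simp only [map_one, Module.End.one_apply] at h2
      rw [← inv_pow, h2, smul_smul, map_pow, ← pow_mul]
      have h3 : χ γ ^ (2 * M₀ * m) * χ γ⁻¹ ^ (2 * m * M₀) = 1 := by
        have h4 : 2 * M₀ * m = 2 * m * M₀ := by ring
        rw [h4, ← mul_pow, ← map_mul, mul_inv_cancel, map_one, one_pow]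
      rw [h3, one_smul]⟩)
  refine ⟨f.ker, hfker, fun u hu v => ?_⟩
  have h2 : f u = 1 := hu
  have h3 : Rg u φ = φ := congrArg Subtype.val (LinearMap.congr_fun h2 (⟨φ, h1⟩ : W))
  have h4 := congrArg (fun g : MultilinearMap ℚ_[ℓ] (fun _ : κ => V) H => g fun l => ρ u (v l)) h3
  change Rg u φ (fun l => ρ u (v l)) = φ (fun l => ρ u (v l)) at h4
  rw [hRg] at h4
  have h5 : ∀ x : V, ρ u⁻¹ (ρ u x) = x := by
    intro x
    rw [← Module.End.mul_apply, ← map_mul, inv_mul_cancel, map_one]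
    rfl
  simp only [h5] at h4
  exact h4.symm

end main

end Pool.Agent.K6.H79.ST
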