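import Mathlib
import Pool.Agent.K6.H79.ST.Open

/-!
# The components of the forms on a direct sum
-/

set_option autoImplicit false
set_option linter.unusedSectionVars false

namespace Pool.Agent.K6.H79.ST

open Module Polynomial Pool.Agent.K6.H79.TX

section comp

variable {k V₁ V₂ : Type} [Field k] [AddCommGroup V₁] [Module k V₁] [AddCommGroup V₂]
  [Module k V₂] {κ₁ κ₂ : Type} [Fintype κ₁] [DecidableEq κ₁] [Fintype κ₂] [DecidableEq κ₂]

/-- The component with the variables `κ₁` in `V₁` and the variables `κ₂` in `V₂`. -/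
noncomputable def bi (F : Form k (V₁ × V₂) (κ₁ ⊕ κ₂)) :
    MultilinearMap k (fun _ : κ₁ => V₁) (Form k V₂ κ₂) :=
  ((MultilinearMap.compLinearMapₗ (fun _ : κ₂ => LinearMap.inr k V₁ V₂)).compMultilinearMap
    (MultilinearMap.currySum F)).compLinearMap (fun _ => LinearMap.inl k V₁ V₂)

theorem bi_apply (F : Form k (V₁ × V₂) (κ₁ ⊕ κ₂)) (v : κ₁ → V₁) (w : κ₂ → V₂) :
    bi F v w = F (Sum.elim (fun i => (v i, 0)) (fun j => (0, w j))) := rfl

/-- The square of a form. -/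
noncomputable def dbl (F : Form k (V₁ × V₂) (κ₁ ⊕ κ₂)) :
    Form k (V₁ × V₂) ((κ₁ ⊕ κ₁) ⊕ (κ₂ ⊕ κ₂)) :=
  ((LinearMap.mul' k k).compMultilinearMap (F.domCoprod F)).domDomCongr
    (Equiv.sumSumSumComm κ₁ κ₂ κ₁ κ₂)

theorem dbl_apply (F : Form k (V₁ × V₂) (κ₁ ⊕ κ₂)) (u : (κ₁ ⊕ κ₁) ⊕ (κ₂ ⊕ κ₂) → V₁ × V₂) :
    dbl F u = F (fun i => u (Sum.map Sum.inl Sum.inl i)) *
      F (fun i => u (Sum.map Sum.inr Sum.inr i)) := by
  change F (fun i => u (Equiv.sumSumSumComm κ₁ κ₂ κ₁ κ₂ (Sum.inl i))) *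
    F (fun i => u (Equiv.sumSumSumComm κ₁ κ₂ κ₁ κ₂ (Sum.inr i))) = _
  congr 2
  · funext i
    rcases i with i | i <;> rfl
  · funext i
    rcases i with i | i <;> rfl

theorem bi_dbl (F : Form k (V₁ × V₂) (κ₁ ⊕ κ₂)) (v : κ₁ ⊕ κ₁ → V₁) (w : κ₂ ⊕ κ₂ → V₂) :
    bi (dbl F) v w = bi F (fun i => v (Sum.inl i)) (fun j => w (Sum.inl j)) *
      bi F (fun i => v (Sum.inr i)) (fun j => w (Sum.inr j)) := by
  rw [bi_apply, dbl_apply, bi_apply, bi_apply]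
  congr 2
  · funext i
    rcases i with i | i <;> rfl
  · funext i
    rcases i with i | i <;> rfl

end comp

section rep

variable {k V Γ : Type} [Field k] [AddCommGroup V] [Module k V] [Group Γ]

/-- The representation on the forms. -/
noncomputable def formRep (ρ : Representation k Γ V) (κ : Type) [Fintype κ] :
    Representation k Γ (Form k V κ) where
  toFun s := MultilinearMap.compLinearMapₗ (fun _ => ρ s⁻¹)
  map_one' := by
    ext h v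
    change h (fun i => ρ 1⁻¹ (v i)) = h v
    rw [inv_one, map_one]
    rfl
  map_mul' s t := by
    ext h v
    change h (fun i => ρ (s * t)⁻¹ (v i)) = h (fun i => ρ t⁻¹ (ρ s⁻¹ (v i)))
    rw [mul_inv_rev, map_mul]
    rfl

theorem formRep_apply (ρ : Representation k Γ V) {κ : Type} [Fintype κ] (s : Γ) (h : Form k V κ)
    (v : κ → V) : formRep ρ κ s h v = h fun i => ρ s⁻¹ (v i) := rfl

theorem formRep_inv (ρ : Representation k Γ V) (κ : Type) [Fintype κ] [DecidableEq κ] (s : Γ) :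
    formRep ρ κ s⁻¹ = actOn (ρ s) Finset.univ := by
  ext h v
  rw [formRep_apply, actOn_apply, inv_inv]
  congr 1
  funext i
  rw [if_pos (Finset.mem_univ i)]

end rep

section main

variable {ℓ : ℕ} [Fact ℓ.Prime] {V₁ V₂ Γ : Type} [AddCommGroup V₁] [Module ℚ_[ℓ] V₁]
  [FiniteDimensional ℚ_[ℓ] V₁] [AddCommGroup V₂] [Module ℚ_[ℓ] V₂] [FiniteDimensional ℚ_[ℓ] V₂]
  [Group Γ] [TopologicalSpace Γ] [IsTopologicalGroup Γ] {ρ₁ : Representation ℚ_[ℓ] Γ V₁}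
  {ρ₂ : Representation ℚ_[ℓ] Γ V₂} {χ : Γ →* ℚ_[ℓ]} {κ₁ κ₂ : Type} [Fintype κ₁] [DecidableEq κ₁]
  [Fintype κ₂] [DecidableEq κ₂]

omit [TopologicalSpace Γ] [IsTopologicalGroup Γ] in
theorem goodFor_of_isGood {s : Γ} (h : IsGood ρ₁ ρ₂ χ s) :
    GoodFor ρ₁ χ (formRep ρ₂ κ₂) κ₁ s := by
  obtain ⟨q, R, hq, hχs, hR, hmin, hsplit⟩ := h
  refine ⟨q, R, ⟨hq, hχs, hR, hmin⟩, ?_⟩
  intro β hβ x hx N r hN hrel
  rw [formRep_inv] at hβ
  have hinv : ρ₂ s * ρ₂ s⁻¹ = 1 := by rw [← map_mul, mul_inv_cancel, map_one]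
  obtain ⟨y, hy, rfl⟩ := root_form hinv hβ
  let E₁ := Fintype.equivFin κ₁
  let E₂ := Fintype.equivFin κ₂
  have h1 : ∏ l, x (E₁.symm l) = ∏ l, x l := Fintype.prod_equiv E₁.symm _ _ fun _ => rfl
  have h2 : ∏ l, y (E₂.symm l) = ∏ l, y l := Fintype.prod_equiv E₂.symm _ _ fun _ => rfl
  have h3 := hsplit _ _ (fun l => x (E₁.symm l)) (fun l => y (E₂.symm l)) (fun l => by
      have h4 : minpoly ℚ_[ℓ] (ρ₁ s) ∣ (ρ₁ s).charpoly := LinearMap.minpoly_dvd_charpoly (ρ₁ s)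
      obtain ⟨P, hP⟩ := h4
      rw [hP, map_mul, hmin, Polynomial.aeval_map_algebraMap]
      have h5 := hx (E₁.symm l)
      rw [show aeval (x (E₁.symm l)) R = 0 from h5, zero_mul]) (fun l => hy _) N r hN (by
      rw [h1, h2, mul_pow]
      exact hrel)
  rw [h1] at h3
  exact h3

/-- **The components of the Sato-Tate forms.** -/
theorem core [CompactSpace Γ] (hρ : ContCoef ρ₁) (hχ : Continuous χ)
    (hgood : Dense {s : Γ | IsGood ρ₁ ρ₂ χ s}) (F : Form ℚ_[ℓ] (V₁ × V₂) (κ₁ ⊕ κ₂))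
    (Δ : Subgroup Γ) (hΔ : Δ.FiniteIndex)
    (hF : ∀ s ∈ Δ, ∀ (v v' : κ₁ → V₁) (w w' : κ₂ → V₂),
      bi F (fun i => ρ₁ s (v i)) (fun j => ρ₂ s (w j)) *
        bi F (fun i => ρ₁ s (v' i)) (fun j => ρ₂ s (w' j)) =
      χ s ^ (Fintype.card κ₁ + Fintype.card κ₂) * (bi F v w * bi F v' w')) :
    ∃ U : Subgroup Γ, U.FiniteIndex ∧ ∀ u ∈ U, ∀ (v v' : κ₁ → V₁) (w w' : κ₂ → V₂),
      bi F (fun i => ρ₁ u (v i)) w * bi F (fun i => ρ₁ u (v' i)) w' =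
      χ u ^ Fintype.card κ₁ * (bi F v w * bi F v' w') := by
  obtain ⟨U, hU, h⟩ := fixed_split (ρ := ρ₁) (σ := formRep ρ₂ (κ₂ ⊕ κ₂)) (κ := κ₁ ⊕ κ₁) hρ hχ
    hgood (fun s hs => goodFor_of_isGood hs) (r := Fintype.card κ₁ + Fintype.card κ₂)
    (m := Fintype.card κ₁) (by rw [Fintype.card_sum, two_mul]) (bi (dbl F)) Δ hΔ (by
      intro s hs x
      ext y
      rw [bi_dbl, smul_apply, formRep_apply, bi_dbl, smul_eq_mul]
      have h1 := hF s hs (fun i => x (Sum.inl i)) (fun i => x (Sum.inr i))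
        (fun j => ρ₂ s⁻¹ (y (Sum.inl j))) (fun j => ρ₂ s⁻¹ (y (Sum.inr j)))
      have h2 : ∀ z : V₂, ρ₂ s (ρ₂ s⁻¹ z) = z := by
        intro z
        rw [← Module.End.mul_apply, ← map_mul, mul_inv_cancel, map_one]
        rfl
      simp only [h2] at h1
      exact h1)
  refine ⟨U, hU, fun u hu v v' w w' => ?_⟩
  have h1 := h u hu (Sum.elim v v')
  have h2 := congrArg (fun g : Form ℚ_[ℓ] V₂ (κ₂ ⊕ κ₂) => g (Sum.elim w w')) h1
  simp only [smul_apply, bi_dbl, smul_eq_mul] at h2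
  exact h2

end main

end Pool.Agent.K6.H79.ST
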