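import Mathlib
import Pool.Agent.K6.H79.ST.Core

/-!
# The conjecture of Sato and Tate for the sum of two motives
-/

set_option autoImplicit false
set_option linter.unusedSectionVars false

namespace Pool.Agent.K6.H79.ST

open Module Polynomial Pool.Agent.K6.H79.TX

section semisimple

variable {k V₁ V₂ Γ : Type} [Field k] [AddCommGroup V₁] [Module k V₁] [AddCommGroup V₂]
  [Module k V₂] [Group Γ] {ρ₁ : Representation k Γ V₁} {ρ₂ : Representation k Γ V₂}

theorem sumRep_apply (s : Γ) (x : V₁ × V₂) : sumRep ρ₁ ρ₂ s x = (ρ₁ s x.1, ρ₂ s x.2) := rfl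

theorem semisimple_sum (h₁ : Semisimple ρ₁) (h₂ : Semisimple ρ₂) :
    Semisimple (sumRep ρ₁ ρ₂) := by
  intro Δ hΔ W hW
  obtain ⟨C₂, hC₂, hc₂⟩ := h₂ Δ hΔ (W.map (LinearMap.snd k V₁ V₂)) (by
    rintro s hs _ ⟨x, hx, rfl⟩
    exact ⟨_, hW s hs x hx, rfl⟩)
  obtain ⟨C₁, hC₁, hc₁⟩ := h₁ Δ hΔ (W.comap (LinearMap.inl k V₁ V₂)) (by
    intro s hs x hx
    have h3 := hW s hs _ hx
    rw [sumRep_apply] at h3
    change (ρ₁ s x, ρ₂ s 0) ∈ W at h3
    rw [map_zero] at h3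
    exact h3)
  refine ⟨C₁.prod C₂, fun s hs x hx => ⟨hC₁ s hs _ hx.1, hC₂ s hs _ hx.2⟩, ?_, ?_⟩
  · rw [Submodule.disjoint_def]
    rintro ⟨x₁, x₂⟩ hx ⟨hx₁, hx₂⟩
    have h3 : x₂ = 0 := Submodule.disjoint_def.1 hc₂.disjoint x₂ ⟨_, hx, rfl⟩ hx₂
    subst h3
    have h4 : x₁ = 0 := Submodule.disjoint_def.1 hc₁.disjoint x₁ hx hx₁
    rw [h4]
    rfl
  · rw [codisjoint_iff, eq_top_iff]
    rintro ⟨x₁, x₂⟩ -
    have h3 : x₂ ∈ W.map (LinearMap.snd k V₁ V₂) ⊔ C₂ := by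
      rw [hc₂.sup_eq_top]
      trivial
    obtain ⟨_, ⟨w, hw, rfl⟩, c₂, hc₂', h4⟩ := Submodule.mem_sup.1 h3
    have h5 : x₁ - w.1 ∈ W.comap (LinearMap.inl k V₁ V₂) ⊔ C₁ := by
      rw [hc₁.sup_eq_top]
      trivial
    obtain ⟨a, ha, c₁, hc₁', h6⟩ := Submodule.mem_sup.1 h5
    refine Submodule.mem_sup.2 ⟨w + (a, 0), W.add_mem hw ha, (c₁, c₂), ⟨hc₁', hc₂'⟩, ?_⟩
    refine Prod.ext ?_ ?_
    · change w.1 + a + c₁ = x₁
      rw [add_assoc, h6]
      abel
    · change w.2 + 0 + c₂ = x₂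
      rw [add_zero]
      exact h4

theorem semisimple_first (h : Semisimple (sumRep ρ₁ ρ₂)) : Semisimple ρ₁ := by
  intro Δ hΔ W hW
  obtain ⟨C, hC, hc⟩ := h Δ hΔ (W.prod ⊥) (by
    rintro s hs ⟨x₁, x₂⟩ ⟨hx₁, hx₂⟩
    refine ⟨hW s hs _ hx₁, ?_⟩
    have h3 : x₂ = 0 := hx₂
    change ρ₂ s x₂ ∈ (⊥ : Submodule k V₂)
    rw [h3, map_zero]
    exact Submodule.zero_mem _)
  refine ⟨C.comap (LinearMap.inl k V₁ V₂), ?_, ?_, ?_⟩
  · intro s hs x hx
    have h3 := hC s hs _ hx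
    rw [sumRep_apply] at h3
    change (ρ₁ s x, ρ₂ s 0) ∈ C at h3
    rw [map_zero] at h3
    exact h3
  · rw [Submodule.disjoint_def]
    intro x hx hx'
    have h3 := Submodule.disjoint_def.1 hc.disjoint ((x, 0) : V₁ × V₂) ⟨hx, Submodule.zero_mem _⟩ hx'
    exact congrArg Prod.fst h3
  · rw [codisjoint_iff, eq_top_iff]
    intro x _
    have h3 : ((x, 0) : V₁ × V₂) ∈ W.prod ⊥ ⊔ C := by
      rw [hc.sup_eq_top]
      trivial
    obtain ⟨⟨a, a'⟩, ⟨ha, ha'⟩, ⟨c, c'⟩, hc', h4⟩ := Submodule.mem_sup.1 h3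
    have h5 : a' = 0 := ha'
    subst h5
    have h6 : a + c = x := congrArg Prod.fst h4
    have h7 : 0 + c' = 0 := congrArg Prod.snd h4
    rw [zero_add] at h7
    subst h7
    exact Submodule.mem_sup.2 ⟨a, ha, c, hc', h6⟩

theorem semisimple_second (h : Semisimple (sumRep ρ₁ ρ₂)) : Semisimple ρ₂ := by
  intro Δ hΔ W hW
  obtain ⟨C, hC, hc⟩ := h Δ hΔ ((⊥ : Submodule k V₁).prod W) (by
    rintro s hs ⟨x₁, x₂⟩ ⟨hx₁, hx₂⟩
    refine ⟨?_, hW s hs _ hx₂⟩
    have h3 : x₁ = 0 := hx₁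
    change ρ₁ s x₁ ∈ (⊥ : Submodule k V₁)
    rw [h3, map_zero]
    exact Submodule.zero_mem _)
  refine ⟨C.comap (LinearMap.inr k V₁ V₂), ?_, ?_, ?_⟩
  · intro s hs x hx
    have h3 := hC s hs _ hx
    rw [sumRep_apply] at h3
    change (ρ₁ s 0, ρ₂ s x) ∈ C at h3
    rw [map_zero] at h3
    exact h3
  · rw [Submodule.disjoint_def]
    intro x hx hx'
    have h3 := Submodule.disjoint_def.1 hc.disjoint ((0, x) : V₁ × V₂) ⟨Submodule.zero_mem _, hx⟩ hx'
    exact congrArg Prod.snd h3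
  · rw [codisjoint_iff, eq_top_iff]
    intro x _
    have h3 : ((0, x) : V₁ × V₂) ∈ (⊥ : Submodule k V₁).prod W ⊔ C := by
      rw [hc.sup_eq_top]
      trivial
    obtain ⟨⟨a, a'⟩, ⟨ha, ha'⟩, ⟨c, c'⟩, hc', h4⟩ := Submodule.mem_sup.1 h3
    have h5 : a = 0 := ha
    subst h5
    have h6 : a' + c' = x := congrArg Prod.snd h4
    have h7 : 0 + c = 0 := congrArg Prod.fst h4
    rw [zero_add] at h7
    subst h7
    exact Submodule.mem_sup.2 ⟨a', ha', c', hc', h6⟩

end semisimple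

section kills

variable {k V : Type} [Field k] [AddCommGroup V] [Module k V] {κ κ' : Type} [Fintype κ]
  [DecidableEq κ] [Fintype κ'] [DecidableEq κ']

theorem kills_congr (X : End k V) (e : κ ≃ κ') {f : Form k V κ}
    (h : Kills X (f.domDomCongr e)) : Kills X f := by
  intro v
  have h1 := h fun i => v (e.symm i)
  rw [← h1]
  refine Fintype.sum_equiv e _ _ fun l => ?_
  rw [MultilinearMap.domDomCongr_apply]
  congr 1
  funext i
  by_cases hi : i = l
  · subst hi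
    rw [Function.update_self, Function.update_self, Equiv.symm_apply_apply]
  · rw [Function.update_of_ne hi, Function.update_of_ne (fun h => hi (e.injective h)),
      Equiv.symm_apply_apply]

theorem SatoTate.killed' {Γ : Type} [Group Γ] {ρ : Representation k Γ V} {χ : Γ →* k}
    {𝔤 : Submodule k (End k V)} (h : SatoTate ρ χ 𝔤) {f : Form k V κ} (hf : IsSatoTate ρ χ f)
    {X : End k V} (hX : X ∈ 𝔤) : Kills X f := by
  refine kills_congr X (Fintype.equivFin κ) (h.killed _ _ ?_ X hX)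
  obtain ⟨Δ, hΔ, hf⟩ := hf
  refine ⟨Δ, hΔ, fun s hs v v' => ?_⟩
  have h1 := hf s hs (fun i => v (Fintype.equivFin κ i)) fun i => v' (Fintype.equivFin κ i)
  rw [Fintype.card_fin]
  exact h1

end kills

section split

variable {k V₁ V₂ : Type} [Field k] [AddCommGroup V₁] [Module k V₁] [AddCommGroup V₂]
  [Module k V₂] {m : ℕ}

/-- The component of a form for a subset of the variables. -/
noncomputable def part (f : Form k (V₁ × V₂) (Fin m)) (S : Finset (Fin m)) :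
    Form k (V₁ × V₂) ({l // l ∈ S} ⊕ {l // ¬ l ∈ S}) :=
  f.domDomCongr (Equiv.sumCompl (fun l => l ∈ S)).symm

theorem part_apply (f : Form k (V₁ × V₂) (Fin m)) (S : Finset (Fin m))
    (u : {l // l ∈ S} ⊕ {l // ¬ l ∈ S} → V₁ × V₂) :
    part f S u = f fun i => u ((Equiv.sumCompl (fun l => l ∈ S)).symm i) := rfl

/-- The partial forms. -/
noncomputable def fixSecond {κ₁ κ₂ : Type} [Fintype κ₁] [Fintype κ₂] [DecidableEq κ₁]
    [DecidableEq κ₂] (F : Form k (V₁ × V₂) (κ₁ ⊕ κ₂)) (w : κ₂ → V₂) : Form k V₁ κ₁ :=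
  LinearMap.compMultilinearMap
    { toFun := fun h : Form k V₂ κ₂ => h w
      map_add' := fun _ _ => rfl
      map_smul' := fun _ _ => rfl } (bi F)

theorem fixSecond_apply {κ₁ κ₂ : Type} [Fintype κ₁] [Fintype κ₂] [DecidableEq κ₁]
    [DecidableEq κ₂] (F : Form k (V₁ × V₂) (κ₁ ⊕ κ₂)) (w : κ₂ → V₂) (v : κ₁ → V₁) :
    fixSecond F w v = bi F v w := rfl

theorem kills_prod (f : Form k (V₁ × V₂) (Fin m)) (X₁ : End k V₁) (X₂ : End k V₂)
    (h₁ : ∀ S (w : {l // ¬ l ∈ S} → V₂), Kills X₁ (fixSecond (part f S) w))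
    (h₂ : ∀ S (v : {l // l ∈ S} → V₁), Kills X₂ (bi (part f S) v)) :
    Kills (X₁.prodMap X₂) f := by
  intro v
  let a : Fin m → V₁ × V₂ := fun i => ((v i).1, 0)
  let b : Fin m → V₁ × V₂ := fun i => (0, (v i).2)
  let A : Fin m → Fin m → V₁ × V₂ := fun l => Function.update a l (X₁ (v l).1, 0)
  let B : Fin m → Fin m → V₁ × V₂ := fun l => Function.update b l (0, X₂ (v l).2)
  have h0 : ∀ l, Function.update v l ((X₁.prodMap X₂) (v l)) = A l + B l := by
    intro l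
    funext i
    by_cases hi : i = l
    · subst hi
      simp only [A, B, Pi.add_apply, Function.update_self, LinearMap.prodMap_apply]
      refine Prod.ext ?_ ?_
      · exact (add_zero _).symm
      · exact (zero_add _).symm
    · simp only [A, B, Pi.add_apply, Function.update_of_ne hi, a, b]
      refine Prod.ext ?_ ?_
      · exact (add_zero _).symm
      · exact (zero_add _).symm
  simp only [h0, MultilinearMap.map_add_univ]
  rw [Finset.sum_comm]
  refine Finset.sum_eq_zero fun S _ => ?_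
  rw [← Fintype.sum_equiv (Equiv.sumCompl (fun l => l ∈ S))
    (fun x => f (S.piecewise (A (Equiv.sumCompl (fun l => l ∈ S) x))
      (B (Equiv.sumCompl (fun l => l ∈ S) x)))) (fun l => f (S.piecewise (A l) (B l)))
    (fun x => rfl), Fintype.sum_sum_type]
  have h3 : ∑ l : {l // l ∈ S}, f (S.piecewise (A l) (B l)) = 0 := by
    have h4 := h₁ S (fun j => (v j).2) fun i => (v i).1
    rw [← h4]
    refine Finset.sum_congr rfl fun l _ => ?_
    rw [fixSecond_apply, bi_apply, part_apply]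
    congr 1
    funext i
    by_cases hi : i ∈ S
    · rw [Equiv.sumCompl_symm_apply_of_pos (p := fun l => l ∈ S) hi, Sum.elim_inl, Finset.piecewise_eq_of_mem _ _ _ hi]
      by_cases hil : i = l
      · have h5 : (⟨i, hi⟩ : {l // l ∈ S}) = l := Subtype.ext hil
        rw [h5, Function.update_self]
        subst hil
        exact Function.update_self _ _ _
      · have h5 : (⟨i, hi⟩ : {l // l ∈ S}) ≠ l := fun h => hil (congrArg Subtype.val h)
        rw [Function.update_of_ne h5]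
        exact Function.update_of_ne hil _ _
    · rw [Equiv.sumCompl_symm_apply_of_neg (p := fun l => l ∈ S) hi, Sum.elim_inr,
        Finset.piecewise_eq_of_notMem _ _ _ hi]
      have hil : i ≠ l := by
        rintro rfl
        exact hi l.2
      exact Function.update_of_ne hil _ _
  have h3' : ∑ l : {l // ¬ l ∈ S}, f (S.piecewise (A l) (B l)) = 0 := by
    have h4 := h₂ S (fun i => (v i).1) fun j => (v j).2
    rw [← h4]
    refine Finset.sum_congr rfl fun l _ => ?_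
    rw [bi_apply, part_apply]
    congr 1
    funext i
    by_cases hi : i ∈ S
    · rw [Equiv.sumCompl_symm_apply_of_pos (p := fun l => l ∈ S) hi, Sum.elim_inl, Finset.piecewise_eq_of_mem _ _ _ hi]
      have hil : i ≠ l := by
        rintro rfl
        exact l.2 hi
      exact Function.update_of_ne hil _ _
    · rw [Equiv.sumCompl_symm_apply_of_neg (p := fun l => l ∈ S) hi, Sum.elim_inr,
        Finset.piecewise_eq_of_notMem _ _ _ hi]
      by_cases hil : i = l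
      · have h5 : (⟨i, hi⟩ : {l // ¬ l ∈ S}) = l := Subtype.ext hil
        rw [h5, Function.update_self]
        subst hil
        exact Function.update_self _ _ _
      · have h5 : (⟨i, hi⟩ : {l // ¬ l ∈ S}) ≠ l := fun h => hil (congrArg Subtype.val h)
        rw [Function.update_of_ne h5]
        exact Function.update_of_ne hil _ _
  have h5 : (∑ x : {l // l ∈ S}, f (S.piecewise
      (A (Equiv.sumCompl (fun l => l ∈ S) (Sum.inl x)))
      (B (Equiv.sumCompl (fun l => l ∈ S) (Sum.inl x))))) = 0 := h3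
  have h6 : (∑ x : {l // ¬ l ∈ S}, f (S.piecewise
      (A (Equiv.sumCompl (fun l => l ∈ S) (Sum.inr x)))
      (B (Equiv.sumCompl (fun l => l ∈ S) (Sum.inr x))))) = 0 := h3'
  rw [h5, h6, add_zero]

end split

section main

variable {ℓ : ℕ} [Fact ℓ.Prime] {V₁ V₂ Γ : Type} [AddCommGroup V₁] [Module ℚ_[ℓ] V₁]
  [FiniteDimensional ℚ_[ℓ] V₁] [AddCommGroup V₂] [Module ℚ_[ℓ] V₂] [FiniteDimensional ℚ_[ℓ] V₂]
  [Group Γ] [TopologicalSpace Γ] [IsTopologicalGroup Γ] [CompactSpace Γ]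
  {ρ₁ : Representation ℚ_[ℓ] Γ V₁} {ρ₂ : Representation ℚ_[ℓ] Γ V₂} {χ : Γ →* ℚ_[ℓ]}

/-- The partial forms of a Sato-Tate form are Sato-Tate forms. -/
theorem partial_forms (hρ : ContCoef ρ₁) (hχ : Continuous χ)
    (hgood : Dense {s : Γ | IsGood ρ₁ ρ₂ χ s}) {m : ℕ} {f : Form ℚ_[ℓ] (V₁ × V₂) (Fin m)}
    (hf : IsSatoTate (sumRep ρ₁ ρ₂) χ f) (S : Finset (Fin m)) :
    (∀ w : {l // ¬ l ∈ S} → V₂, IsSatoTate ρ₁ χ (fixSecond (part f S) w)) ∧
    ∀ v : {l // l ∈ S} → V₁, IsSatoTate ρ₂ χ (bi (part f S) v) := by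
  obtain ⟨Δ, hΔ, hf⟩ := hf
  have hcard : Fintype.card {l // l ∈ S} + Fintype.card {l // ¬ l ∈ S} = m := by
    rw [← Fintype.card_sum, Fintype.card_congr (Equiv.sumCompl (fun l => l ∈ S)),
      Fintype.card_fin]
  have hF : ∀ s ∈ Δ, ∀ (v v' : {l // l ∈ S} → V₁) (w w' : {l // ¬ l ∈ S} → V₂),
      bi (part f S) (fun i => ρ₁ s (v i)) (fun j => ρ₂ s (w j)) *
        bi (part f S) (fun i => ρ₁ s (v' i)) (fun j => ρ₂ s (w' j)) =
      χ s ^ (Fintype.card {l // l ∈ S} + Fintype.card {l // ¬ l ∈ S}) *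
        (bi (part f S) v w * bi (part f S) v' w') := by
    intro s hs v v' w w'
    have h1 : ∀ (v : {l // l ∈ S} → V₁) (w : {l // ¬ l ∈ S} → V₂),
        bi (part f S) (fun i => ρ₁ s (v i)) (fun j => ρ₂ s (w j)) =
        f fun i => sumRep ρ₁ ρ₂ s (Sum.elim (fun i => ((v i, 0) : V₁ × V₂)) (fun j => (0, w j))
          ((Equiv.sumCompl (fun l => l ∈ S)).symm i)) := by
      intro v w
      rw [bi_apply, part_apply]
      congr 1
      funext i
      rcases (Equiv.sumCompl (fun l => l ∈ S)).symm i with j | j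
      · rw [Sum.elim_inl, Sum.elim_inl, sumRep_apply]
        refine Prod.ext rfl ?_
        change 0 = ρ₂ s 0
        rw [map_zero]
      · rw [Sum.elim_inr, Sum.elim_inr, sumRep_apply]
        refine Prod.ext ?_ rfl
        change 0 = ρ₁ s 0
        rw [map_zero]
    rw [h1, h1, hf s hs, Fintype.card_fin, hcard]
    rfl
  obtain ⟨U, hU, hUf⟩ := core hρ hχ hgood (part f S) Δ hΔ hF
  refine ⟨fun w => ⟨U, hU, fun u hu v v' => ?_⟩, fun v => ⟨U ⊓ Δ, inferInstance,
    fun s hs w w' => ?_⟩⟩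
  · exact hUf u hu v v' w w
  · have h1 := hUf s hs.1 v v (fun j => ρ₂ s (w j)) fun j => ρ₂ s (w' j)
    rw [hF s hs.2, pow_add, mul_assoc] at h1
    have hχ0 : χ s ≠ 0 := by
      intro h0
      have h5 : χ s * χ s⁻¹ = 1 := by rw [← map_mul, mul_inv_cancel, map_one]
      rw [h0, zero_mul] at h5
      exact zero_ne_one h5
    exact (mul_left_cancel₀ (pow_ne_zero _ hχ0) h1).symm

/-- **The conjecture of Sato and Tate for a sum.** -/
theorem satoTate_sum (hρ : ContCoef ρ₁) (hχ : Continuous χ)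
    (hgood : Dense {s : Γ | IsGood ρ₁ ρ₂ χ s}) {𝔤₁ : Submodule ℚ_[ℓ] (End ℚ_[ℓ] V₁)}
    {𝔤₂ : Submodule ℚ_[ℓ] (End ℚ_[ℓ] V₂)} {𝔤 : Submodule ℚ_[ℓ] (End ℚ_[ℓ] (V₁ × V₂))}
    (h𝔤 : IsLieOfSum 𝔤₁ 𝔤₂ 𝔤) :
    SatoTate (sumRep ρ₁ ρ₂) χ 𝔤 ↔ SatoTate ρ₁ χ 𝔤₁ ∧ SatoTate ρ₂ χ 𝔤₂ := by
  constructor
  · intro h
    refine ⟨⟨semisimple_first h.semisimple, ?_⟩, ⟨semisimple_second h.semisimple, ?_⟩⟩
    · rintro m f ⟨Δ, hΔ, hf⟩ X₁ hX₁ v
      obtain ⟨X₂, hX⟩ := h𝔤.first X₁ hX₁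
      have h1 := h.killed m (f.compLinearMap fun _ => LinearMap.fst ℚ_[ℓ] V₁ V₂)
        ⟨Δ, hΔ, fun s hs v v' => hf s hs (fun l => (v l).1) fun l => (v' l).1⟩ _ hX
        fun l => (v l, 0)
      rw [← h1]
      refine Finset.sum_congr rfl fun l _ => ?_
      rw [MultilinearMap.compLinearMap_apply]
      congr 1
      funext i
      by_cases hi : i = l
      · subst hi
        rw [Function.update_self, Function.update_self]
        rfl
      · rw [Function.update_of_ne hi, Function.update_of_ne hi]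
        rfl
    · rintro m f ⟨Δ, hΔ, hf⟩ X₂ hX₂ v
      obtain ⟨X₁, hX⟩ := h𝔤.second X₂ hX₂
      have h1 := h.killed m (f.compLinearMap fun _ => LinearMap.snd ℚ_[ℓ] V₁ V₂)
        ⟨Δ, hΔ, fun s hs v v' => hf s hs (fun l => (v l).2) fun l => (v' l).2⟩ _ hX
        fun l => (0, v l)
      rw [← h1]
      refine Finset.sum_congr rfl fun l _ => ?_
      rw [MultilinearMap.compLinearMap_apply]
      congr 1
      funext i
      by_cases hi : i = l
      · subst hi
        rw [Function.update_self, Function.update_self]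
        rfl
      · rw [Function.update_of_ne hi, Function.update_of_ne hi]
        rfl
  · rintro ⟨h₁, h₂⟩
    refine ⟨semisimple_sum h₁.semisimple h₂.semisimple, fun m f hf X hX => ?_⟩
    obtain ⟨X₁, hX₁, X₂, hX₂, rfl⟩ := h𝔤.blocks X hX
    exact kills_prod f X₁ X₂
      (fun S w => h₁.killed' ((partial_forms hρ hχ hgood hf S).1 w) hX₁)
      (fun S v => h₂.killed' ((partial_forms hρ hχ hgood hf S).2 v) hX₂)

end main

end Pool.Agent.K6.H79.ST
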