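import Mathlib
import Pool.Agent.R401.Iso
import Pool.Agent.K6.H79.MU.Norm
import Pool.Agent.K6.H79.ST.Defs

/-!
# A criterion for the splitting of the relations
-/

set_option autoImplicit false

namespace Pool.Agent.K6.H79.ST

open Polynomial Pool.Agent.K6.H79.MU

/-- **The relations split** if for every root `α` of `R₁` some automorphism of `ℂ` maps `α` to its
complex conjugate and fixes a positive power of every root of `R₂`. -/
theorem relationsSplit_of_conjugates {ℓ : ℕ} [Fact ℓ.Prime] {R₁ R₂ : ℚ[X]} (hR₁ : R₁ ≠ 0) {q : ℕ}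
    (hq : 0 < q) (hw : ∀ α : ℂ, aeval α R₁ = 0 → α * (starRingEnd ℂ) α = q)
    (hc : ∀ α : ℂ, aeval α R₁ = 0 → ∃ τ : ℂ ≃+* ℂ, τ α = (starRingEnd ℂ) α ∧
      ∀ β : ℂ, aeval β R₂ = 0 → ∃ n : ℕ, 0 < n ∧ τ (β ^ n) = β ^ n) :
    RelationsSplit (ℓ := ℓ) q (R₁.map (algebraMap ℚ ℚ_[ℓ])) (R₂.map (algebraMap ℚ ℚ_[ℓ])) := by
  intro a b x y hx hy N r hN hrel
  obtain ⟨ν⟩ := Pool.Agent.R401.Iso.exists_iso ℓ
  have hroot : ∀ (P : ℚ[X]) (z : PadicAlgCl ℓ), aeval z (P.map (algebraMap ℚ ℚ_[ℓ])) = 0 →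
      aeval (ν z) P = 0 := by
    intro P z hz
    rw [Polynomial.aeval_map_algebraMap] at hz
    have h1 := congrArg ν hz
    rw [map_zero] at h1
    rw [← h1, Polynomial.aeval_def, Polynomial.aeval_def]
    have h4 := Polynomial.hom_eval₂ P (algebraMap ℚ (PadicAlgCl ℓ)) (ν : PadicAlgCl ℓ →+* ℂ) z
    refine Eq.trans ?_ h4.symm
    congr 1
    exact Subsingleton.elim _ _
  let β : ℂ := ∏ l, ν (y l)
  have hβ : Unrelated R₁ β := by
    intro α hα
    obtain ⟨τ, hτ, hτβ⟩ := hc α hα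
    have h1 : ∀ l, ∃ n : ℕ, 0 < n ∧ τ (ν (y l) ^ n) = ν (y l) ^ n := fun l =>
      hτβ _ (hroot R₂ _ (hy l))
    choose n hn hn' using h1
    refine ⟨τ, hτ, ∏ l, n l, Finset.prod_pos fun l _ => hn l, ?_⟩
    change τ ((∏ l, ν (y l)) ^ _) = (∏ l, ν (y l)) ^ _
    rw [← Finset.prod_pow, map_prod]
    refine Finset.prod_congr rfl fun l _ => ?_
    obtain ⟨k, hk⟩ : n l ∣ ∏ l, n l := Finset.dvd_prod_of_mem _ (Finset.mem_univ l)
    rw [hk, pow_mul, map_pow, hn' l]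
  let s : List (Rt R₁) := List.ofFn fun l => ⟨ν (x l), hroot R₁ _ (hx l)⟩
  have hs : (s.map Subtype.val).prod = ∏ l, ν (x l) := by
    simp only [s, List.map_ofFn, List.prod_ofFn]
    rfl
  have hlen : s.length = a := by
    simp only [s, List.length_ofFn]
  obtain ⟨M, hM, h1⟩ := norm_arg hR₁ hq hw hβ s (c := (q : ℚ) ^ r) hN
    (pow_ne_zero _ (by exact_mod_cast hq.ne')) (by
      rw [hs]
      have h2 := congrArg ν hrel
      rw [map_pow, map_mul, map_prod, map_prod, mul_pow, map_pow] at h2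
      refine Eq.trans h2 ?_
      rw [map_natCast]
      push_cast
      rfl)
  refine ⟨M, hM, ν.injective ?_⟩
  rw [hs, hlen] at h1
  rw [map_pow, map_prod, map_pow]
  refine Eq.trans h1 ?_
  rw [map_natCast]

end Pool.Agent.K6.H79.ST
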