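import Mathlib
import Pool.Agent.K6.H79.ST.PairAlg
import Pool.Agent.K6.H92.Deg4e

/-!
# The component with known Tate tensors
-/

set_option autoImplicit false
set_option linter.unusedSectionVars false

namespace Pool.Agent.K6.H79.ST

open Module Pool.Agent.Y114.RM Pool.Agent.Y114.TF Pool.Agent.H204R3.GP Pool.Agent.R913.Adj
  Pool.Agent.K6.H92.D4

variable {k : Type} [Field k] [CharZero k] {ι : Type} [Fintype ι] [DecidableEq ι] {V : ι → Type}
  [∀ i, AddCommGroup (V i)] [∀ i, Module k (V i)] [∀ i, FiniteDimensional k (V i)]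
  {Γ : Type} [Group Γ] {ρ : ∀ i, Representation k Γ (V i)} {χ : Γ → k}
  {b : ∀ i, V i →ₗ[k] V i →ₗ[k] k} {𝔤 L : Submodule k (End k (∀ i, V i))} {o : ι}

/-- The part of `L` in one component. -/
def compPart (b : ∀ i, V i →ₗ[k] V i →ₗ[k] k) (L : Submodule k (End k (∀ i, V i))) (o : ι) :
    Submodule k (End k (V o)) := (iso b L).comap (blk o)

theorem mem_compPart {Z : End k (V o)} : Z ∈ compPart b L o ↔ blk o Z ∈ iso b L := Iff.rfl

omit [CharZero k] in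
theorem trace_blk (i : ι) (Z : End k (V i)) :
    LinearMap.trace k (∀ i, V i) (blk i Z) = LinearMap.trace k (V i) Z := by
  have h1 : (blk i Z : End k (∀ i, V i)) =
      LinearMap.single k V i ∘ₗ (Z ∘ₗ LinearMap.proj i) := rfl
  rw [h1, LinearMap.trace_comp_comm']
  congr 1
  refine LinearMap.ext fun x => ?_
  change Z ((Pi.single i x : ∀ i, V i) i) = Z x
  rw [Pi.single_eq_same]

namespace Setup

theorem compPart_nonDeg (h : Setup ρ χ b 𝔤 L o) (hnd : NonDeg L)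
    (hpart : ∀ Y ∈ iso b L, cmp o Y ∈ compPart b L o) : NonDeg (compPart b L o) := by
  intro Z hZ h0
  have h1 : (blk o Z : End k (∀ i, V i)) = 0 := by
    refine hnd _ hZ.1 fun Y hY => ?_
    obtain ⟨c, hc⟩ := h.exists_iso hY
    rw [blk_mul (h.diag Y (h.le hY)), trace_blk]
    have h2 : cmp o Y = cmp o (Y - c • 1) + c • 1 := by
      rw [cmp_sub_smul, neg_smul, neg_add_cancel_right]
    have h3 : Multiplies (b o) Z 0 := by
      have h4 := hZ.2 o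
      rwa [cmp_blk] at h4
    rw [h2, mul_add, map_add, h0 _ (hpart _ hc), mul_smul_comm, mul_one, map_smul,
      trace_zero two_ne_zero (h.nondeg o) h3, smul_zero, add_zero]
  have h2 := congrArg (cmp o) h1
  rwa [cmp_blk, map_zero] at h2

theorem compPart_conj (h : Setup ρ χ b 𝔤 L o) (γ : Γ) {Z : End k (V o)} (hZ : Z ∈ compPart b L o) :
    AdE (ρ o γ) (ρ o γ⁻¹) Z ∈ compPart b L o := by
  rw [AdE_apply]
  have h1 := h.iso_conj hZ γ
  have h2 : sumRep ρ γ * blk o Z * sumRep ρ γ⁻¹ = blk o (ρ o γ * (Z * ρ o γ⁻¹)) := by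
    rw [mul_blk (diag_sum ρ γ), blk_mul (diag_sum ρ _), cmp_sum, cmp_sum, mul_assoc]
  rw [h2] at h1
  exact h1

theorem compPart_lie (h : Setup ρ χ b 𝔤 L o) : IsLie (compPart b L o) := by
  intro Z hZ Z' hZ'
  have h1 := h.iso_bracket hZ hZ'
  have h2 : (blk o Z * blk o Z' - blk o Z' * blk o Z : End k (∀ i, V i)) =
      blk o (Z * Z' - Z' * Z) := by
    rw [mul_blk (diag_blk o Z), mul_blk (diag_blk o Z'), cmp_blk, cmp_blk, map_sub]
  rw [h2] at h1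
  exact h1

/-- **The component with known Tate tensors.** -/
theorem known (h : Setup ρ χ b 𝔤 L o) (hnd : NonDeg L)
    (hΔ : ∃ Δ : Subgroup Γ, Δ.FiniteIndex ∧ ∀ Z, (∀ X ∈ L, X * Z = Z * X) →
      ∀ γ ∈ Δ, Z * sumRep ρ γ = sumRep ρ γ * Z)
    (h4 : ∀ φ : Tensor k (V o) 4, TateTensor (ρ o) φ → ∀ X ∈ 𝔤, KillsTensor (cmp o X) φ)
    (hcen : ∀ Z ∈ isoLie b 𝔤 o, (∀ Z' ∈ isoLie b 𝔤 o, Z * Z' = Z' * Z) → Z = 0)
    (hblk : ∀ i, i ≠ o → ∀ Z ∈ isoLie b 𝔤 i, blk i Z ∈ iso b L) :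
    ∀ Z ∈ isoLie b 𝔤 o, blk o Z ∈ iso b L := by
  have hpart : ∀ Y ∈ iso b L, cmp o Y ∈ compPart b L o := by
    intro Y hY
    have h1 := sum_blk (h.diag Y (h.le hY.1))
    rw [← Finset.add_sum_erase _ _ (Finset.mem_univ o)] at h1
    rw [mem_compPart, eq_sub_of_add_eq h1]
    exact (iso b L).sub_mem hY ((iso b L).sum_mem fun i hi =>
      hblk i (Finset.ne_of_mem_erase hi) _ (h.mem_isoLie hY i))
  have hndp := h.compPart_nonDeg hnd hpart
  obtain ⟨p, hp⟩ := H92.D4.exists_proj hndp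
  have hten : TateTensor (ρ o) (ten p) :=
    tate_ten (ρ o) (Δ := ⊤) inferInstance fun γ _ Y =>
      proj_equi hndp (fun γ Z hZ => h.compPart_conj γ hZ) hp γ Y
  rintro _ ⟨⟨X, hX, rfl⟩, hXb⟩
  have hXb' : Multiplies (b o) (cmp o X) 0 := hXb
  change blk o (cmp o X) ∈ iso b L
  have h1 := decomp h.compPart_lie hndp hp (kills_ten (h4 _ hten X hX))
  set Y := cmp o X - p (cmp o X) with hY
  have hYL : ∀ W ∈ L, W * blk o Y = blk o Y * W := by
    intro W hW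
    obtain ⟨c, hc⟩ := h.exists_iso hW
    rw [mul_blk (h.diag W (h.le hW)), blk_mul (h.diag W (h.le hW))]
    have h2 : cmp o W = cmp o (W - c • 1) + c • 1 := by
      rw [cmp_sub_smul, neg_smul, neg_add_cancel_right]
    rw [h2, add_mul, mul_add, h1 _ (hpart _ hc), smul_mul_assoc, mul_smul_comm, one_mul, mul_one]
  obtain ⟨Δ, hΔ', hc⟩ := hΔ
  have hYΔ : ∀ γ ∈ Δ, Y * ρ o γ = ρ o γ * Y := by
    intro γ hγ
    have h2 := hc (blk o Y) hYL γ hγ
    rw [blk_mul (diag_sum ρ γ), mul_blk (diag_sum ρ γ), cmp_sum] at h2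
    have h3 := congrArg (cmp o) h2
    rwa [cmp_blk, cmp_blk] at h3
  have hYg : ∀ X' ∈ 𝔤, cmp o X' * Y = Y * cmp o X' := fun X' hX' =>
    kills_ten1 (h4 _ (tate_ten1 (ρ o) hΔ' hYΔ) X' hX')
  have hpX : p (cmp o X) ∈ compPart b L o := (hp _).1
  have hYiso : Y ∈ isoLie b 𝔤 o := by
    refine (isoLie b 𝔤 o).sub_mem ⟨⟨X, hX, rfl⟩, hXb⟩ ⟨⟨_, h.le hpX.1, cmp_blk o _⟩, ?_⟩
    have h2 := hpX.2 o
    rwa [cmp_blk] at h2
  have hY0 : Y = 0 := hcen Y hYiso (by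
    rintro _ ⟨⟨X', hX', rfl⟩, -⟩
    exact (hYg X' hX').symm)
  rw [hY, sub_eq_zero] at hY0
  rw [hY0]
  exact hpX

/-- `𝔤` is contained in `L`. -/
theorem le_of (h : Setup ρ χ b 𝔤 L o) (hblk : ∀ i, ∀ Z ∈ isoLie b 𝔤 i, blk i Z ∈ iso b L) :
    𝔤 ≤ L := by
  intro X hX
  obtain ⟨c, hc, hcL⟩ := h.exists_zero hX
  have h1 : X - c • 1 ∈ L := by
    have hXc : X - c • 1 ∈ 𝔤 := 𝔤.sub_mem hX (h.le hcL)
    rw [← sum_blk (h.diag _ hXc)]
    exact L.sum_mem fun i _ => (hblk i _ ⟨⟨_, hXc, rfl⟩, hc i⟩).1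
  have h2 := L.add_mem h1 hcL
  rwa [sub_add_cancel] at h2

end Setup

end Pool.Agent.K6.H79.ST
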