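import Mathlib
import Pool.Agent.K6.H79.ST.PairAlg
import Pool.Agent.K6.H92.Deg4e
import Pool.Agent.Y130.Add

/-!
# Elements of the Lie algebra of the Tate tensors with a vanishing component
-/

set_option autoImplicit false
set_option linter.unusedSectionVars false

namespace Pool.Agent.K6.H79.ST

open Module TensorProduct Polynomial Pool.Agent.Y114.RM Pool.Agent.Y114.TF Pool.Agent.H204R3.GP
  Pool.Agent.R913.Adj Pool.Agent.K6.H92.D4 Pool.Agent.TH118.SG Pool.Agent

section base

variable {k : Type} [Field k] {C : Type} [Field C] [Algebra k C] {W W' : Type} [AddCommGroup W]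
  [Module k W] [AddCommGroup W'] [Module k W']

theorem pv_bc' (π : C →ₗ[k] k) (f : W →ₗ[k] W') (z : C ⊗[k] W) :
    pv π (f.baseChange C z) = f (pv π z) := by
  induction z using TensorProduct.induction_on with
  | zero => simp
  | tmul c v => rw [LinearMap.baseChange_tmul, pv_tmul, pv_tmul, map_smul]
  | add x y hx hy => rw [map_add, map_add, hx, hy, map_add, map_add]

theorem eq_zero_of_pM [FiniteDimensional k W] {Z : End C (C ⊗[k] W)}
    (h : ∀ π : C →ₗ[k] k, pM π Z = 0) : Z = 0 := by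
  have h1 : Z ∈ bcS C (⊥ : Submodule k (End k W)) :=
    ((Y809.RM.BC.bc k C W ⊥).1 Z).2 fun π => by rw [h π]; exact Submodule.zero_mem _
  have h2 : bcS C (⊥ : Submodule k (End k W)) ≤ ⊥ := by
    refine Submodule.span_le.2 ?_
    rintro _ ⟨X, hX, rfl⟩
    have h3 : X = 0 := hX
    rw [h3, LinearMap.baseChange_zero]
    exact Submodule.zero_mem _
  exact h2 h1

theorem scalar_of_pM [FiniteDimensional k W] {Z : End C (C ⊗[k] W)}
    (h : ∀ π : C →ₗ[k] k, ∃ c : k, pM π Z = c • (1 : End k W)) : ∃ c : C, Z = c • 1 := by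
  have h1 : Z ∈ bcS C (Submodule.span k {(1 : End k W)}) :=
    ((Y809.RM.BC.bc k C W _).1 Z).2 fun π => by
      obtain ⟨c, hc⟩ := h π
      rw [hc]
      exact Submodule.smul_mem _ _ (Submodule.mem_span_singleton_self _)
  have h2 : bcS C (Submodule.span k {(1 : End k W)}) ≤
      Submodule.span C {(1 : End C (C ⊗[k] W))} := by
    refine Submodule.span_le.2 ?_
    rintro _ ⟨X, hX, rfl⟩
    obtain ⟨c, rfl⟩ := Submodule.mem_span_singleton.1 hX
    rw [LinearMap.baseChange_smul]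
    have h3 : (1 : End k W).baseChange C = 1 := LinearMap.baseChange_id
    rw [h3]
    refine Submodule.mem_span_singleton.2 ⟨algebraMap k C c, ?_⟩
    rw [algebraMap_smul]
  obtain ⟨c, hc⟩ := Submodule.mem_span_singleton.1 (h2 h1)
  exact ⟨c, hc.symm⟩

end base

section op

variable {k : Type} [Field k] [CharZero k] {C : Type} [Field C] [CharZero C] [IsAlgClosed C]
  [Algebra k C] {ι : Type} [Fintype ι] [DecidableEq ι] {V : ι → Type} [∀ i, AddCommGroup (V i)]
  [∀ i, Module k (V i)] [∀ i, FiniteDimensional k (V i)] {Γ : Type} [Group Γ]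
  (ρ : ∀ i, Representation k Γ (V i))

variable (C V) in
/-- The inclusion of a summand. -/
noncomputable def incl (i : ι) : C ⊗[k] V i →ₗ[C] C ⊗[k] (∀ i, V i) :=
  (LinearMap.single k V i).baseChange C

omit [CharZero k] [CharZero C] [IsAlgClosed C] [∀ i, FiniteDimensional k (V i)] in
theorem sum_incl (γ : Γ) (i : ι) (z : C ⊗[k] V i) :
    (sumRep ρ γ).baseChange C (incl C V i z) = incl C V i ((ρ i γ).baseChange C z) := by
  have h1 : sumRep ρ γ ∘ₗ LinearMap.single k V i = LinearMap.single k V i ∘ₗ ρ i γ := by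
    refine LinearMap.ext fun x => ?_
    have h2 := (diag_sum ρ γ).single i x
    rw [cmp_sum] at h2
    exact h2
  have h2 := congrArg (fun f => LinearMap.baseChange C f z) h1
  simp only [LinearMap.baseChange_comp] at h2
  exact h2

omit [CharZero k] [CharZero C] [IsAlgClosed C] [∀ i, FiniteDimensional k (V i)] in
theorem incl_gen {γ : Γ} {i : ι} {β : C} {z : C ⊗[k] V i}
    (hz : z ∈ Module.End.maxGenEigenspace ((ρ i γ).baseChange C) β) :
    incl C V i z ∈ Module.End.maxGenEigenspace ((sumRep ρ γ).baseChange C) β := by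
  rw [Module.End.mem_maxGenEigenspace] at hz ⊢
  obtain ⟨n, hn⟩ := hz
  refine ⟨n, ?_⟩
  have h1 : ∀ (n : ℕ) (z : C ⊗[k] V i),
      (((sumRep ρ γ).baseChange C - β • (1 : End C (C ⊗[k] (∀ i, V i)))) ^ n) (incl C V i z) =
        incl C V i ((((ρ i γ).baseChange C - β • (1 : End C (C ⊗[k] V i))) ^ n) z) := by
    intro n
    induction n with
    | zero => intro z; rfl
    | succ n ih =>
      intro z
      rw [pow_succ, pow_succ, Module.End.mul_apply, Module.End.mul_apply, ← ih]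
      congr 1
      rw [LinearMap.sub_apply, LinearMap.sub_apply, sum_incl, map_sub, LinearMap.smul_apply,
        LinearMap.smul_apply, Module.End.one_apply, Module.End.one_apply, map_smul]
  rw [h1, hn, map_zero]

omit [CharZero k] in
/-- The operators of the summands. -/
theorem op_comp {θ : Additive Cˣ →+ C} {γ : Γ} {Y : End C (C ⊗[k] (∀ i, V i))}
    (hY : IsOp θ ((sumRep ρ γ).baseChange C) Y) {i : ι} {Z : End C (C ⊗[k] V i)}
    (hZ : IsOp θ ((ρ i γ).baseChange C) Z) (z : C ⊗[k] V i) :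
    Y (incl C V i z) = incl C V i (Z z) := by
  have h1 : z ∈ ⨆ β, Module.End.maxGenEigenspace ((ρ i γ).baseChange C : End C (C ⊗[k] V i)) β := by
    rw [Module.End.iSup_maxGenEigenspace_eq_top]
    trivial
  induction h1 using Submodule.iSup_induction' with
  | mem β z hz =>
    rw [hZ β z hz, hY β _ (incl_gen ρ hz), map_smul]
  | zero => simp only [map_zero]
  | add x y _ _ hx hy => rw [map_add, map_add, hx, hy, map_add, map_add]

omit [CharZero k] in
theorem cmp_pM {θ : Additive Cˣ →+ C} {γ : Γ} {Y : End C (C ⊗[k] (∀ i, V i))}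
    (hY : IsOp θ ((sumRep ρ γ).baseChange C) Y) {i : ι} {Z : End C (C ⊗[k] V i)}
    (hZ : IsOp θ ((ρ i γ).baseChange C) Z) (π : C →ₗ[k] k) :
    cmp i (pM π Y) = pM π Z := by
  refine LinearMap.ext fun x => ?_
  rw [cmp_apply, pM_apply, pM_apply]
  have h1 : (1 : C) ⊗ₜ[k] (Pi.single i x : ∀ i, V i) = incl C V i ((1 : C) ⊗ₜ[k] x) := by
    rw [incl, LinearMap.baseChange_tmul]
    rfl
  rw [h1, op_comp ρ hY hZ, incl, pv_bc']
  exact Pi.single_eq_same i _

omit [CharZero k] [CharZero C] in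
theorem root_of_gen {W : Type} [AddCommGroup W] [Module k W] [FiniteDimensional k W]
    {g : End k W} {β : C} {z : C ⊗[k] W}
    (hz : z ∈ Module.End.maxGenEigenspace (g.baseChange C) β) (h0 : z ≠ 0) :
    aeval β g.charpoly = 0 := by
  have h1 : Module.End.HasEigenvalue (g.baseChange C) β := by
    by_contra hcon
    rw [Module.End.hasEigenvalue_iff, not_not] at hcon
    rw [Module.End.mem_maxGenEigenspace] at hz
    obtain ⟨n, hn⟩ := hz
    apply h0
    have h2 : ∀ z, (g.baseChange C - β • (1 : End C (C ⊗[k] W))) z = 0 → z = 0 := by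
      intro z hz
      have h3 : z ∈ Module.End.eigenspace (g.baseChange C) β := by
        rw [Module.End.mem_eigenspace_iff]
        exact sub_eq_zero.1 hz
      rw [hcon] at h3
      exact h3
    have h3 : ∀ (n : ℕ) (z), ((g.baseChange C - β • (1 : End C (C ⊗[k] W))) ^ n) z = 0 → z = 0 := by
      intro n
      induction n with
      | zero => intro z hz; exact hz
      | succ n ih =>
        intro z hz
        rw [pow_succ, Module.End.mul_apply] at hz
        exact h2 z (ih _ hz)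
    exact h3 n z hn
  rw [Module.End.hasEigenvalue_iff_isRoot_charpoly, LinearMap.charpoly_baseChange,
    Polynomial.IsRoot, Polynomial.eval_map_algebraMap] at h1
  exact h1

omit [CharZero k] [CharZero C] in
theorem exists_gen {W : Type} [AddCommGroup W] [Module k W] [FiniteDimensional k W]
    {g : End k W} {α : C} (hα : aeval α g.charpoly = 0) :
    ∃ z ∈ Module.End.maxGenEigenspace (g.baseChange C) α, z ≠ 0 := by
  have h1 : Module.End.HasEigenvalue (g.baseChange C) α := by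
    rw [Module.End.hasEigenvalue_iff_isRoot_charpoly, LinearMap.charpoly_baseChange,
      Polynomial.IsRoot, Polynomial.eval_map_algebraMap]
    exact hα
  obtain ⟨z, hz⟩ := h1.exists_hasEigenvector
  refine ⟨z, ?_, hz.2⟩
  rw [Module.End.mem_maxGenEigenspace]
  refine ⟨1, ?_⟩
  rw [pow_one]
  exact sub_eq_zero.2 hz.apply_eq_smul

omit [CharZero k] [CharZero C] [IsAlgClosed C] in
theorem root_ne_zero {W : Type} [AddCommGroup W] [Module k W] [FiniteDimensional k W]
    {g g' : End k W} (hg : g * g' = 1) {α : C} (hα : aeval α g.charpoly = 0) : α ≠ 0 := by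
  rintro rfl
  have h1 : Module.End.HasEigenvalue (g.baseChange C) 0 := by
    rw [Module.End.hasEigenvalue_iff_isRoot_charpoly, LinearMap.charpoly_baseChange,
      Polynomial.IsRoot, Polynomial.eval_map_algebraMap]
    exact hα
  obtain ⟨z, hz⟩ := h1.exists_hasEigenvector
  apply hz.2
  have h2 : (g.baseChange C) z = 0 := by
    rw [hz.apply_eq_smul, zero_smul]
  have h3 : (g'.baseChange C) * (g.baseChange C) = 1 := by
    rw [← LinearMap.baseChange_mul, mul_eq_one_comm.1 hg]
    exact LinearMap.baseChange_id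
  have h4 := LinearMap.congr_fun h3 z
  rw [Module.End.mul_apply, h2, map_zero] at h4
  exact h4.symm

variable {L : Submodule k (End k (∀ i, V i))}

theorem exists_indep (hL : ∀ X, X ∈ L ↔ X ∈ LT (sumRep ρ)) {i j : ι} {γ : Γ} {α : C}
    (hα : aeval α (ρ i γ).charpoly = 0)
    (h : ∀ n : ℕ, 0 < n → ∀ u ∈ Subgroup.closure {u : Cˣ | aeval (u : C) (ρ j γ).charpoly = 0},
      (u : C) ≠ α ^ n) : ∃ X ∈ L, cmp j X = 0 ∧ cmp i X ≠ 0 := by
  have hi : ρ i γ * ρ i γ⁻¹ = 1 := by rw [← map_mul, mul_inv_cancel, map_one]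
  have hα0 := root_ne_zero hi hα
  obtain ⟨θ, hθ, hθ'⟩ := Pool.Agent.Y130.exists_add_one
    (Subgroup.closure {u : Cˣ | aeval (u : C) (ρ j γ).charpoly = 0}) (Units.mk0 α hα0)
    (fun n hn hmem => h n hn _ hmem (by rw [Units.val_pow_eq_pow_val, Units.val_mk0]))
  obtain ⟨Y, hY⟩ := exists_op ((sumRep ρ γ).baseChange C : End C (C ⊗[k] (∀ i, V i))) (ext0 θ)
  obtain ⟨Yi, hYi⟩ := exists_op ((ρ i γ).baseChange C : End C (C ⊗[k] V i)) (ext0 θ)
  have hYj : IsOp θ ((ρ j γ).baseChange C : End C (C ⊗[k] V j)) 0 := by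
    intro β z hz
    by_cases hz0 : z = 0
    · rw [hz0, map_zero, smul_zero]
    · have h1 := root_of_gen hz hz0
      by_cases hβ : β = 0
      · rw [hβ, ext0_zero, zero_smul, LinearMap.zero_apply]
      · rw [ext0_ne θ hβ, hθ (Units.mk0 β hβ) (Subgroup.subset_closure h1), zero_smul,
          LinearMap.zero_apply]
  obtain ⟨z, hz, hz0⟩ := exists_gen hα
  have hYi0 : Yi ≠ 0 := by
    intro h0
    have h1 := hYi α z hz
    rw [h0, LinearMap.zero_apply, ext0_ne θ hα0] at h1
    exact (smul_ne_zero hθ' hz0) h1.symm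
  obtain ⟨π, hπ⟩ : ∃ π : C →ₗ[k] k, pM π Yi ≠ 0 := by
    by_contra hcon
    push Not at hcon
    exact hYi0 (eq_zero_of_pM hcon)
  refine ⟨pM π Y, ((Y809.RM.BC.bc k C _ L).1 Y).1 (Pool.Agent.R913.Adj.op_mem C hL γ θ Y hY) π, ?_, ?_⟩
  · rw [cmp_pM ρ hY hYj]
    refine LinearMap.ext fun x => ?_
    rw [pM_apply, LinearMap.zero_apply, map_zero]
    rfl
  · rw [cmp_pM ρ hY hYi]
    exact hπ

theorem exists_nonscalar (hL : ∀ X, X ∈ L ↔ X ∈ LT (sumRep ρ)) {i : ι} {γ : Γ} {α α' : C}
    (hα : aeval α (ρ i γ).charpoly = 0) (hα' : aeval α' (ρ i γ).charpoly = 0)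
    (h : ∀ n : ℕ, 0 < n → α ^ n ≠ α' ^ n) : ∃ X ∈ L, ∀ c : k, cmp i X ≠ c • 1 := by
  have hi : ρ i γ * ρ i γ⁻¹ = 1 := by rw [← map_mul, mul_inv_cancel, map_one]
  have hα0 := root_ne_zero hi hα
  have hα'0 := root_ne_zero hi hα'
  obtain ⟨θ, -, hθ'⟩ := Pool.Agent.Y130.exists_add_one (⊥ : Subgroup Cˣ)
    (Units.mk0 α hα0 * (Units.mk0 α' hα'0)⁻¹) (fun n hn hmem => h n hn (by
      rw [Subgroup.mem_bot, mul_pow, inv_pow, mul_inv_eq_one] at hmem
      have h1 := congrArg Units.val hmem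
      rw [Units.val_pow_eq_pow_val, Units.val_pow_eq_pow_val] at h1
      exact h1))
  have hne : ext0 θ α ≠ ext0 θ α' := by
    intro h1
    apply hθ'
    rw [ext0_ne θ hα0, ext0_ne θ hα'0] at h1
    rw [ofMul_mul, ofMul_inv, map_add, map_neg, h1, add_neg_cancel]
  obtain ⟨Y, hY⟩ := exists_op ((sumRep ρ γ).baseChange C : End C (C ⊗[k] (∀ i, V i))) (ext0 θ)
  obtain ⟨Yi, hYi⟩ := exists_op ((ρ i γ).baseChange C : End C (C ⊗[k] V i)) (ext0 θ)
  obtain ⟨z, hz, hz0⟩ := exists_gen hα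
  obtain ⟨z', hz', hz'0⟩ := exists_gen hα'
  obtain ⟨π, hπ⟩ : ∃ π : C →ₗ[k] k, ∀ c : k, pM π Yi ≠ c • 1 := by
    by_contra hcon
    push Not at hcon
    obtain ⟨c, hc⟩ := scalar_of_pM hcon
    apply hne
    have h1 := hYi α z hz
    have h2 := hYi α' z' hz'
    rw [hc] at h1 h2
    have h3 : (c - ext0 θ α) • z = 0 := (sub_smul c (ext0 θ α) z).trans (sub_eq_zero.2 h1)
    have h4 : (c - ext0 θ α') • z' = 0 := (sub_smul c (ext0 θ α') z').trans (sub_eq_zero.2 h2)
    rw [← sub_eq_zero.1 ((smul_eq_zero.1 h3).resolve_right hz0),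
      ← sub_eq_zero.1 ((smul_eq_zero.1 h4).resolve_right hz'0)]
  refine ⟨pM π Y, ((Y809.RM.BC.bc k C _ L).1 Y).1 (Pool.Agent.R913.Adj.op_mem C hL γ θ Y hY) π,
    fun c => ?_⟩
  rw [cmp_pM ρ hY hYi]
  exact hπ c

end op

end Pool.Agent.K6.H79.ST
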