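import Mathlib
import Pool.Agent.K6.H79.ST.PairOp
import Pool.Agent.K6.H79.ST.PairKnown
import Pool.Agent.K6.H79.ST.PairRestrict

/-!
# One Frobenius element for each pair of motives
-/

set_option autoImplicit false
set_option linter.unusedSectionVars false

namespace Pool.Agent.K6.H79.ST

open Module TensorProduct Polynomial Pool.Agent.Y114.RM Pool.Agent.Y114.TF Pool.Agent.H204R3.GP
  Pool.Agent.R913.Adj Pool.Agent.K6.H92.D4 Pool.Agent.TH118.SG Pool.Agent

variable {ι : Type} [Fintype ι] [DecidableEq ι] {n : ι → ℕ} {ℓ : ℕ} [Fact ℓ.Prime]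
  {Γ : Type} [Group Γ] [TopologicalSpace Γ] [IsTopologicalGroup Γ] [CompactSpace Γ]
  {D : Family ℚ_[ℓ] (Sp n ℓ) Γ}

/-- **One Frobenius element for each pair.** -/
theorem tate_of_pairs (hρ : ∀ i, Continuous fun g => LinearMap.toMatrix' (D.ρ i g))
    (hD : D.IsPolarized) (hw : D.w ≠ 0 → ∃ γ : Γ, ActsPurely D.ρ (fun _ => D.w) γ)
    (hss : FiniteIndexSemisimple (sumRep D.ρ)) {o : ι} (hadd : D.Addable o)
    (hknown : D.DegreeFour o) : D.MumfordTate := by
  obtain ⟨L, p, hL, hLie, hnd, hp, hAd, hΔ⟩ := exists_Lp hρ hss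
  have hLG : L ≤ D.𝔤 := L_le hD.motivic hL
  have hL' : ∀ X, X ∈ L ↔ X ∈ LT (sumRep D.ρ) := fun X =>
    ⟨fun hX => mem_LT_of_semisimple (sumRep D.ρ) hss ((hL X).1 hX), fun hX => (hL X).2 hX.2⟩
  have hS : Setup D.ρ D.χ D.b D.𝔤 L o :=
    { le := hLG
      lie := hLie
      ad := fun γ X hX => by
        have h1 := hAd γ X hX
        rw [AdE_apply, ← mul_assoc] at h1
        exact h1
      diag := fun X hX => hD.motivic.parts X hX
      nondeg := hD.nondegenerate
      galois := hD.galois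
      mult := fun X hX => by
        obtain ⟨μ, -, hμ⟩ := hD.lie X hX
        exact ⟨μ, hμ⟩
      one := by
        by_cases hw0 : D.w = 0
        · right
          intro X hX i
          obtain ⟨μ, hμ0, hμ⟩ := hD.lie X hX
          have h1 := hμ i
          rw [hμ0 hw0] at h1
          exact h1
        · left
          obtain ⟨γ, hγ⟩ := hw hw0
          have h1 : weightOp (k := ℚ_[ℓ]) (fun i => Fin (n i) → ℚ_[ℓ]) (fun _ => D.w) ∈ L :=
            (hL _).2 fun m φ hφ => weight_kills D.ρ hss hγ m φ hφ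
          have h2 : weightOp (k := ℚ_[ℓ]) (fun i => Fin (n i) → ℚ_[ℓ]) (fun _ => D.w) =
              (D.w : ℚ_[ℓ]) • (1 : End ℚ_[ℓ] (∀ i, Sp n ℓ i)) := rfl
          rw [h2] at h1
          have h3 : (D.w : ℚ_[ℓ]) ≠ 0 := by exact_mod_cast hw0
          exact (L.smul_mem_iff h3).1 h1
      irr := hadd.irreducible
      nonscalar := fun i hi => by
        obtain ⟨γ, α, α', hα, hα', hne⟩ := hadd.notSupersingular i hi
        exact exists_nonscalar (C := AlgebraicClosure ℚ_[ℓ]) D.ρ hL' hα hα' hne }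
  have hPO : ∀ i j, D.Apart i j → Setup.PairOK D.b D.𝔤 L i j := by
    rintro i j (h | ⟨γ, α, hα, h⟩)
    · exact Or.inl h
    · exact Or.inr (exists_indep (C := AlgebraicClosure ℚ_[ℓ]) D.ρ hL' hα h)
  have hblk : ∀ i, i ≠ o → ∀ Z ∈ isoLie D.b D.𝔤 i, blk i Z ∈ iso D.b L := fun i hi Z hZ =>
    hS.blk_mem hi (fun j hij => (hadd.apart i j hi hij).imp (hPO i j)
      fun h => ⟨h.1, hPO j i h.2⟩) hZ
  have ho := hS.known hnd hΔ hknown hadd.centre hblk
  intro m φ
  refine (allT_of_le hD.motivic hss hL (hS.le_of fun i Z hZ => ?_)).2 m φ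
  by_cases hi : i = o
  · subst hi
    exact ho Z hZ
  · exact hblk i hi Z hZ

/-- **One Frobenius element for each pair**, as an equivalence. -/
theorem tate_iff (hρ : ∀ i, Continuous fun g => LinearMap.toMatrix' (D.ρ i g))
    (hD : D.IsPolarized) (hw : D.w ≠ 0 → ∃ γ : Γ, ActsPurely D.ρ (fun _ => D.w) γ)
    (hss : FiniteIndexSemisimple (sumRep D.ρ)) {o : ι} (hadd : D.Addable o) :
    D.MumfordTate ↔ D.DegreeFour o :=
  ⟨fun h φ hφ X hX => kills_block o (hD.motivic.parts X hX)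
    (fun φ hφ => (h 4 φ).1 hφ X hX) φ hφ,
  fun h => tate_of_pairs hρ hD hw hss hadd h⟩

end Pool.Agent.K6.H79.ST
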